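import Mathlib

/-!
# Facts on C*-algebras: Cuntz comparison of functions of an element, polar decomposition
-/

set_option autoImplicit false

namespace Pool.Agent.Helper144_BH

section

variable {B : Type*} [CStarAlgebra B] [PartialOrder B] [StarOrderedRing B]

omit [PartialOrder B] [StarOrderedRing B] in
/-- Cuntz comparison of two functions of a selfadjoint element. -/
lemma cfc_cuntz (a : B) {F G : ℝ → ℝ} (hF : ContinuousOn F (spectrum ℝ a))
    (hG : ContinuousOn G (spectrum ℝ a))
    (hF0 : ∀ t ∈ spectrum ℝ a, 0 ≤ F t) (hG0 : ∀ t ∈ spectrum ℝ a, 0 ≤ G t)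
    (hFG : ∀ t ∈ spectrum ℝ a, 0 < F t → 0 < G t) :
    cfc F a ∈ closure (Set.range fun x : B => x * cfc G a * star x) := by
  rw [Metric.mem_closure_iff]
  intro ε hε
  have hK : IsCompact (spectrum ℝ a) := spectrum.isCompact a
  obtain ⟨C, hC⟩ := hK.exists_bound_of_continuousOn hF
  have hC' : ∀ t ∈ spectrum ℝ a, F t ≤ |C| + 1 := fun t ht =>
    ((le_abs_self _).trans (hC t ht)).trans ((le_abs_self C).trans (by linarith))
  have hCpos : 0 < |C| + 1 := by positivity
  let S : Set ℝ := spectrum ℝ a ∩ F ⁻¹' (Set.Ici (ε / 2))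
  have hS : IsCompact S :=
    hK.of_isClosed_subset (hF.preimage_isClosed_of_isClosed hK.isClosed isClosed_Ici)
      Set.inter_subset_left
  obtain ⟨γ, hγ, hγS⟩ : ∃ γ : ℝ, 0 < γ ∧ ∀ t ∈ S, γ ≤ G t := by
    rcases S.eq_empty_or_nonempty with h | h
    · exact ⟨1, one_pos, fun t ht => by rw [h] at ht; exact ht.elim⟩
    · obtain ⟨t₀, ht₀, hmin⟩ := hS.exists_isMinOn h (hG.mono Set.inter_subset_left)
      refine ⟨G t₀, hFG t₀ ht₀.1 (lt_of_lt_of_le (by positivity) ht₀.2), fun t ht => hmin ht⟩
  let δ : ℝ := γ * (ε / 2) / (|C| + 1)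
  have hδ : 0 < δ := by positivity
  let f : ℝ → ℝ := fun t => √(F t / (G t + δ))
  have hf : ContinuousOn f (spectrum ℝ a) := by
    apply ContinuousOn.sqrt
    apply hF.div (hG.add continuousOn_const)
    intro t ht
    exact (add_pos_of_nonneg_of_pos (hG0 t ht) hδ).ne'
  refine ⟨_, ⟨cfc f a, rfl⟩, ?_⟩
  have e1 : cfc f a * cfc G a * star (cfc f a) = cfc (fun t => f t * G t * f t) a := by
    rw [(cfc_predicate f a : IsSelfAdjoint (cfc f a)).star_eq, ← cfc_mul f G a hf hG,
      ← cfc_mul (fun t => f t * G t) f a (hf.mul hG) hf]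
  simp only
  rw [e1, dist_eq_norm, ← cfc_sub F (fun t => f t * G t * f t) a hF ((hf.mul hG).mul hf)]
  refine lt_of_le_of_lt (norm_cfc_le (by positivity : (0 : ℝ) ≤ ε / 2) ?_) (by linarith)
  intro t ht
  have h0 := hF0 t ht
  have h1 := hG0 t ht
  have h2 : f t * G t * f t = F t * G t / (G t + δ) := by
    have : f t * f t = F t / (G t + δ) := Real.mul_self_sqrt (by positivity)
    calc f t * G t * f t = (f t * f t) * G t := by ring
      _ = F t * G t / (G t + δ) := by rw [this]; ring
  rw [h2]
  have h3 : F t - F t * G t / (G t + δ) = F t * δ / (G t + δ) := by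
    field_simp
    ring
  rw [h3, Real.norm_eq_abs, abs_of_nonneg (by positivity)]
  by_cases hS' : ε / 2 ≤ F t
  · have h4 : γ ≤ G t := hγS t ⟨ht, hS'⟩
    have h5 := hC' t ht
    rw [div_le_iff₀ (by positivity)]
    calc F t * δ ≤ (|C| + 1) * δ := by gcongr
      _ = ε / 2 * γ := by simp only [δ]; field_simp
      _ ≤ ε / 2 * (G t + δ) := by gcongr; linarith
  · rw [not_le] at hS'
    rw [div_le_iff₀ (by positivity)]
    have : F t * δ ≤ ε / 2 * δ := by gcongr
    nlinarith

lemma nonneg_iff_gen {b : B} : 0 ≤ b ↔ ∃ c, b = star c * c :=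
  CStarAlgebra.nonneg_iff_eq_star_mul_self

lemma cuntz_sq_gen {b : B} (hb : 0 ≤ b) :
    b ∈ closure (Set.range fun x : B => x * (b * b) * star x) := by
  have h1 := cfc_cuntz b (F := fun t => t)
    (G := fun t => t * t) continuousOn_id (continuousOn_id.mul continuousOn_id)
    (fun t ht => spectrum_nonneg_of_nonneg hb ht) (fun t _ => mul_self_nonneg t)
    (fun t _ h => mul_pos h h)
  have hsa : IsSelfAdjoint b := hb.isSelfAdjoint
  rw [cfc_id' ℝ b, cfc_mul (fun t : ℝ => t) (fun t => t) b continuousOn_id continuousOn_id,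
    cfc_id' ℝ b] at h1
  exact h1

/-- A form of polar decomposition. -/
lemma exists_polar {v χ : B} {K : ℝ} (hK : 0 ≤ K) (h : χ * star χ ≤ K • (star v * v)) :
    ∃ V ∈ closure (Set.range fun x : B => v * x), star V * V = star χ * χ := by
  let G : B := star v * v
  have hG : 0 ≤ G := star_mul_self_nonneg v
  have hGsa : IsSelfAdjoint G := hG.isSelfAdjoint
  have hspec : ∀ t ∈ spectrum ℝ G, 0 ≤ t := fun t ht => spectrum_nonneg_of_nonneg hG ht
  let δ : ℕ → ℝ := fun n => 1 / ((n : ℝ) + 1)
  have hδ : ∀ n, 0 < δ n := fun n => Nat.one_div_pos_of_nat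
  let tf : ℕ → ℝ → ℝ := fun n t => 1 / √(t + δ n)
  let rf : ℕ → ℝ → ℝ := fun n t => √t * (1 / √(t + δ n))
  have hpos : ∀ n, ∀ t ∈ spectrum ℝ G, 0 < √(t + δ n) := fun n t ht =>
    Real.sqrt_pos.2 (add_pos_of_nonneg_of_pos (hspec t ht) (hδ n))
  have htf : ∀ n, ContinuousOn (tf n) (spectrum ℝ G) := by
    intro n
    apply ContinuousOn.div continuousOn_const
    · exact (continuousOn_id.add continuousOn_const).sqrt
    · exact fun t ht => (hpos n t ht).ne'
  have hsq : ContinuousOn (fun t : ℝ => √t) (spectrum ℝ G) := Real.continuous_sqrt.continuousOn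
  have hrf : ∀ n, ContinuousOn (rf n) (spectrum ℝ G) := fun n => hsq.mul (htf n)
  let g : B := cfc (fun t : ℝ => √t) G
  have hg : star g = g := (cfc_predicate (fun t : ℝ => √t) G : IsSelfAdjoint _).star_eq
  have hgg : g * g = G := by
    have : cfc (fun t : ℝ => √t * √t) G = cfc (fun t : ℝ => t) G := by
      apply cfc_congr
      intro t ht
      exact Real.mul_self_sqrt (hspec t ht)
    rw [← cfc_mul _ _ G hsq hsq, this, cfc_id' ℝ G]
  let T : ℕ → B := fun n => cfc (tf n) G
  let r : ℕ → B := fun n => cfc (rf n) G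
  have hr : ∀ n, g * T n = r n := fun n => (cfc_mul _ _ G hsq (htf n)).symm
  have hrs : ∀ n, star (r n) = r n := fun n => (cfc_predicate (rf n) G : IsSelfAdjoint _).star_eq
  -- norm identity
  have hnorm : ∀ y : B, ‖v * y‖ = ‖g * y‖ := by
    intro y
    have e : star (v * y) * (v * y) = star (g * y) * (g * y) := by
      rw [star_mul, star_mul, hg]
      calc star y * star v * (v * y) = star y * (star v * v) * y := by noncomm_ring
        _ = star y * (g * g) * y := by rw [hgg]
        _ = star y * g * (g * y) := by noncomm_ring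
    have h1 := CStarRing.norm_star_mul_self (x := v * y)
    have h2 := CStarRing.norm_star_mul_self (x := g * y)
    rw [e, h2] at h1
    nlinarith [norm_nonneg (v * y), norm_nonneg (g * y), sq_nonneg (‖v * y‖ - ‖g * y‖),
      sq_nonneg (‖v * y‖ + ‖g * y‖)]
  -- r n χ → χ
  have hlim : ∀ n, ‖r n * χ - χ‖ * ‖r n * χ - χ‖ ≤ K * δ n := by
    intro n
    have e0 : r n * χ - χ = (r n - 1) * χ := by noncomm_ring
    have h1 := CStarRing.norm_self_mul_star (x := r n * χ - χ)
    rw [← h1, e0]
    have e1 : (r n - 1) * χ * star ((r n - 1) * χ) =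
        star (r n - 1) * (χ * star χ) * (r n - 1) := by
      rw [star_mul, star_sub, star_one, hrs]
      noncomm_ring
    have h2 : star (r n - 1) * (χ * star χ) * (r n - 1) ≤
        star (r n - 1) * (K • G) * (r n - 1) := star_left_conjugate_le_conjugate h _
    have h3 : 0 ≤ star (r n - 1) * (χ * star χ) * (r n - 1) :=
      star_left_conjugate_nonneg (mul_star_self_nonneg χ) _
    rw [e1]
    refine (CStarAlgebra.norm_le_norm_of_nonneg_of_le h3 h2).trans ?_
    have e2 : star (r n - 1) * (K • G) * (r n - 1) =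
        cfc (fun t => K * ((rf n t - 1) * t * (rf n t - 1))) G := by
      have hid : ContinuousOn (fun t : ℝ => t) (spectrum ℝ G) := continuousOn_id
      have hc1 : ContinuousOn (fun t => rf n t - 1) (spectrum ℝ G) :=
        (hrf n).sub continuousOn_const
      rw [cfc_const_mul K (fun t => (rf n t - 1) * t * (rf n t - 1)) G
        ((hc1.mul hid).mul hc1), cfc_mul (fun t => (rf n t - 1) * t) (fun t => rf n t - 1) G
        (hc1.mul hid) hc1, cfc_mul (fun t => rf n t - 1) (fun t => t) G hc1 hid, cfc_id' ℝ G,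
        cfc_sub (rf n) (fun _ => 1) G (hrf n) continuousOn_const, cfc_const_one ℝ G, star_sub,
        star_one, hrs]
      simp only [mul_smul_comm, smul_mul_assoc]
      rfl
    rw [e2]
    apply norm_cfc_le (mul_nonneg hK (hδ n).le)
    intro t ht
    have ht0 := hspec t ht
    have hδn := hδ n
    rw [norm_mul, Real.norm_of_nonneg hK]
    gcongr
    -- t (1 - √t/√(t+δ))² ≤ δ
    set x := √t with hx
    set y := √(t + δ n) with hy
    have hx0 : 0 ≤ x := Real.sqrt_nonneg _
    have hy0 : 0 < y := hpos n t ht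
    have hx2 : x * x = t := Real.mul_self_sqrt ht0
    have hy2 : y * y = t + δ n := Real.mul_self_sqrt (by positivity)
    have hxy : x ≤ y := Real.sqrt_le_sqrt (by linarith)
    have e3 : (rf n t - 1) * t * (rf n t - 1) = (x * (y - x) / y) * (x * (y - x) / y) := by
      simp only [rf, ← hx, ← hy]
      rw [← hx2]
      field_simp
      ring
    rw [e3, Real.norm_of_nonneg (mul_self_nonneg _)]
    have h4 : x * (y - x) / y ≤ y - x := by
      rw [div_le_iff₀ hy0]
      nlinarith
    have h4' : 0 ≤ x * (y - x) / y := by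
      apply div_nonneg _ hy0.le
      exact mul_nonneg hx0 (by linarith)
    nlinarith
  have hδ0 : Filter.Tendsto δ Filter.atTop (nhds 0) := tendsto_one_div_add_atTop_nhds_zero_nat
  have hrχ : Filter.Tendsto (fun n => r n * χ) Filter.atTop (nhds χ) := by
    rw [tendsto_iff_norm_sub_tendsto_zero]
    have h1 : Filter.Tendsto (fun n => √(K * δ n)) Filter.atTop (nhds 0) := by
      have := (hδ0.const_mul K).sqrt
      simpa using this
    refine squeeze_zero (fun n => norm_nonneg _) (fun n => ?_) h1
    exact Real.le_sqrt_of_sq_le (by rw [sq]; exact hlim n)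
  let V : ℕ → B := fun n => v * (T n * χ)
  have hdist : ∀ n k, dist (V n) (V k) = dist (r n * χ) (r k * χ) := by
    intro n k
    rw [dist_eq_norm, dist_eq_norm]
    have : V n - V k = v * (T n * χ - T k * χ) := by simp only [V]; noncomm_ring
    rw [this, hnorm, mul_sub, ← mul_assoc, ← mul_assoc, hr, hr]
  have hcauchy : CauchySeq V := by
    have h1 := hrχ.cauchySeq
    rw [Metric.cauchySeq_iff] at h1 ⊢
    intro ε hε
    obtain ⟨N, hN⟩ := h1 ε hε
    exact ⟨N, fun m hm n hn => by rw [hdist]; exact hN m hm n hn⟩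
  obtain ⟨V₀, hV₀⟩ := cauchySeq_tendsto_of_complete hcauchy
  refine ⟨V₀, ?_, ?_⟩
  · exact mem_closure_of_tendsto hV₀ (Filter.Eventually.of_forall fun n => ⟨_, rfl⟩)
  · have h1 : Filter.Tendsto (fun n => star (V n) * V n) Filter.atTop (nhds (star V₀ * V₀)) :=
      (hV₀.star).mul hV₀
    have h2 : Filter.Tendsto (fun n => star (r n * χ) * (r n * χ)) Filter.atTop
        (nhds (star χ * χ)) := (hrχ.star).mul hrχ
    have h3 : (fun n => star (V n) * V n) = fun n => star (r n * χ) * (r n * χ) := by
      funext n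
      simp only [V]
      have e : star (v * (T n * χ)) * (v * (T n * χ)) =
          star (g * (T n * χ)) * (g * (T n * χ)) := by
        rw [star_mul v, star_mul g, hg]
        calc star (T n * χ) * star v * (v * (T n * χ)) =
            star (T n * χ) * (star v * v) * (T n * χ) := by noncomm_ring
          _ = star (T n * χ) * (g * g) * (T n * χ) := by rw [hgg]
          _ = star (T n * χ) * g * (g * (T n * χ)) := by noncomm_ring
      rw [e, ← mul_assoc g, hr]
    rw [h3] at h1
    exact tendsto_nhds_unique h1 h2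

end

end Pool.Agent.Helper144_BH
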