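import Pool.Agent.Helper144_BH.Rank

/-!
# pp-formulas and their dimension with respect to a Sylvester rank function
-/

set_option autoImplicit false
open scoped Matrix

namespace Pool.Agent.Helper144_BH

section act

variable {R : Type} [Ring R] {M : Type} [AddCommGroup M] [Module R M]
variable {k l m n : Type} [Fintype k] [Fintype l] [Fintype m] [Fintype n]

/-- The action of a matrix over `R` on column vectors with entries in a left module. -/
def act (P : Matrix m n R) (v : n → M) : m → M := fun i => ∑ j, P i j • v j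

omit [Fintype l] in
lemma act_mul (P : Matrix l m R) (Q : Matrix m n R) (v : n → M) :
    act (P * Q) v = act P (act Q v) := by
  funext i
  simp only [act, Matrix.mul_apply, Finset.sum_smul, Finset.smul_sum, mul_smul]
  rw [Finset.sum_comm]

omit [Fintype m] in
lemma act_add (P : Matrix m n R) (v w : n → M) : act P (v + w) = act P v + act P w := by
  funext i
  simp [act, Finset.sum_add_distrib]

omit [Fintype m] in
lemma act_add_left (P Q : Matrix m n R) (v : n → M) : act (P + Q) v = act P v + act Q v := by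
  funext i
  simp [act, Finset.sum_add_distrib, add_smul]

omit [Fintype m] in
@[simp] lemma act_zero_left (v : n → M) : act (0 : Matrix m n R) v = 0 := by
  funext i
  simp [act]

omit [Fintype m] in
@[simp] lemma act_zero (P : Matrix m n R) : act P (0 : n → M) = 0 := by
  funext i
  simp [act]

omit [Fintype m] in
lemma act_neg_left (P : Matrix m n R) (v : n → M) : act (-P) v = - act P v := by
  funext i
  simp [act]

omit [Fintype m] in
lemma act_neg (P : Matrix m n R) (v : n → M) : act P (-v) = - act P v := by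
  funext i
  simp [act]

omit [Fintype m] in
lemma act_sub (P : Matrix m n R) (v w : n → M) : act P (v - w) = act P v - act P w := by
  rw [sub_eq_add_neg, act_add, act_neg, ← sub_eq_add_neg]

@[simp] lemma act_one [DecidableEq n] (v : n → M) : act (1 : Matrix n n R) v = v := by
  funext i
  simp [act, Matrix.one_apply, ite_smul]

omit [Fintype k] [Fintype l] in
lemma act_fromRows (P : Matrix k n R) (Q : Matrix l n R) (v : n → M) :
    act (Matrix.fromRows P Q) v = Sum.elim (act P v) (act Q v) := by
  funext i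
  rcases i with i | i <;> simp [act]

omit [Fintype k] in
lemma act_fromCols (P : Matrix k m R) (Q : Matrix k n R) (v : m → M) (w : n → M) :
    act (Matrix.fromCols P Q) (Sum.elim v w) = act P v + act Q w := by
  funext i
  simp [act]

omit [Fintype k] [Fintype l] in
lemma act_fromBlocks (P : Matrix k m R) (Q : Matrix k n R) (P' : Matrix l m R) (Q' : Matrix l n R)
    (v : m → M) (w : n → M) :
    act (Matrix.fromBlocks P Q P' Q') (Sum.elim v w) =
      Sum.elim (act P v + act Q w) (act P' v + act Q' w) := by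
  funext i
  rcases i with i | i <;> simp [act]

lemma sumElim_eq_zero {α β M : Type} [Zero M] {f : α → M} {g : β → M} :
    Sum.elim f g = 0 ↔ f = 0 ∧ g = 0 := by
  constructor
  · intro h
    constructor
    · funext i; exact congrFun h (Sum.inl i)
    · funext i; exact congrFun h (Sum.inr i)
  · rintro ⟨rfl, rfl⟩
    funext i
    rcases i with i | i <;> rfl

end act

/-- A pp-formula in the free variables indexed by `n`: it says `∃ w, P v + Q w = 0`. -/
structure Form (R : Type) (n : Type) where
  p : Type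
  q : Type
  [fp : Fintype p]
  [fq : Fintype q]
  P : Matrix q n R
  Q : Matrix q p R

attribute [instance] Form.fp Form.fq

namespace Form

variable {R : Type} [Ring R] {m n : Type} [Fintype m] [Fintype n]

/-- The solution set of a pp-formula in a module. -/
def eval (φ : Form R n) (M : Type) [AddCommGroup M] [Module R M] : Set (n → M) :=
  {v | ∃ w : φ.p → M, act φ.P v + act φ.Q w = 0}

instance : Preorder (Form R n) where
  le φ ψ := ∀ (M : Type) [AddCommGroup M] [Module R M], φ.eval M ⊆ ψ.eval M
  le_refl _ _ _ _ := subset_rfl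
  le_trans _ _ _ h1 h2 M _ _ := (h1 M).trans (h2 M)

omit [Fintype m] in
lemma le_def {φ ψ : Form R n} :
    φ ≤ ψ ↔ ∀ (M : Type) [AddCommGroup M] [Module R M], φ.eval M ⊆ ψ.eval M := Iff.rfl

/-- Prest's lemma: an implication between pp-formulas is witnessed by matrices. -/
lemma exists_matrices {φ ψ : Form R n} (h : φ ≤ ψ) :
    ∃ (G : Matrix ψ.p n R) (H : Matrix ψ.p φ.p R) (K : Matrix ψ.q φ.q R),
      ψ.P + ψ.Q * G = K * φ.P ∧ ψ.Q * H = K * φ.Q := by
  classical
  -- the universal module
  let row : φ.q → (n ⊕ φ.p → R) := fun i => Sum.elim (φ.P i) (φ.Q i)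
  let N : Submodule R (n ⊕ φ.p → R) := Submodule.span R (Set.range row)
  let M₀ := (n ⊕ φ.p → R) ⧸ N
  let π : (n ⊕ φ.p → R) →ₗ[R] M₀ := N.mkQ
  let v : n → M₀ := fun i => π (Pi.single (Sum.inl i) 1)
  let w : φ.p → M₀ := fun i => π (Pi.single (Sum.inr i) 1)
  have hv : v ∈ φ.eval M₀ := by
    refine ⟨w, ?_⟩
    funext i
    have : (∑ j, φ.P i j • v j) + (∑ j, φ.Q i j • w j) = π (row i) := by
      have hrow : row i = (∑ j, φ.P i j • (Pi.single (Sum.inl j) (1 : R) : n ⊕ φ.p → R)) +
          ∑ j, φ.Q i j • (Pi.single (Sum.inr j) (1 : R) : n ⊕ φ.p → R) := by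
        funext x
        rcases x with x | x
        · simp [row, Finset.sum_apply, Pi.single_apply]
        · simp [row, Finset.sum_apply, Pi.single_apply]
      rw [hrow]
      simp [v, w, map_add, map_sum]
    show (∑ j, φ.P i j • v j) + (∑ j, φ.Q i j • w j) = 0
    rw [this]
    exact (Submodule.Quotient.mk_eq_zero N).2 (Submodule.subset_span ⟨i, rfl⟩)
  obtain ⟨z, hz⟩ := h M₀ hv
  have hsurj : Function.Surjective π := N.mkQ_surjective
  choose Z hZ using fun i => hsurj (z i)
  let G : Matrix ψ.p n R := Matrix.of fun i j => Z i (Sum.inl j)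
  let H : Matrix ψ.p φ.p R := Matrix.of fun i j => Z i (Sum.inr j)
  have hG : ∀ i j, G i j = Z i (Sum.inl j) := fun _ _ => rfl
  have hH : ∀ i j, H i j = Z i (Sum.inr j) := fun _ _ => rfl
  -- the relation in the quotient
  have hmem : ∀ i : ψ.q, (Sum.elim ((ψ.P + ψ.Q * G) i) ((ψ.Q * H) i) : n ⊕ φ.p → R) ∈ N := by
    intro i
    rw [← Submodule.Quotient.mk_eq_zero N]
    have hi := congrFun hz i
    have e : (Sum.elim ((ψ.P + ψ.Q * G) i) ((ψ.Q * H) i) : n ⊕ φ.p → R) =
        (∑ j, ψ.P i j • (Pi.single (Sum.inl j) (1 : R) : n ⊕ φ.p → R)) +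
          ∑ j, ψ.Q i j • Z j := by
      funext x
      rcases x with x | x
      · simp [Finset.sum_apply, Pi.single_apply, Matrix.mul_apply, hG]
      · simp [Finset.sum_apply, Matrix.mul_apply, hH]
    show π _ = 0
    rw [e, map_add, map_sum, map_sum]
    simp only [map_smul, hZ]
    exact hi
  have hspan : ∀ i : ψ.q, ∃ y : φ.q → R,
      ∑ j, y j • row j = (Sum.elim ((ψ.P + ψ.Q * G) i) ((ψ.Q * H) i) : n ⊕ φ.p → R) := by
    intro i
    have := hmem i
    rw [Submodule.mem_span_range_iff_exists_fun] at this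
    exact this
  choose K hK using hspan
  refine ⟨G, H, Matrix.of K, ?_, ?_⟩
  · ext i j
    have := congrFun (hK i) (Sum.inl j)
    simp only [Finset.sum_apply, Pi.smul_apply, Sum.elim_inl, smul_eq_mul, row] at this
    rw [← this, Matrix.mul_apply]
    rfl
  · ext i j
    have := congrFun (hK i) (Sum.inr j)
    simp only [Finset.sum_apply, Pi.smul_apply, Sum.elim_inr, smul_eq_mul, row] at this
    rw [← this, Matrix.mul_apply]
    rfl

end Form

open Classical in
/-- The dimension of a pp-formula with respect to a rank function. -/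
noncomputable def SylRank.dim {R : Type} [Ring R] (r : SylRank R) {n : Type} [Fintype n]
    (φ : Form R n) : ℝ :=
  r.rk (1 : Matrix n n R) - r.rk (Matrix.fromCols φ.P φ.Q) + r.rk φ.Q

namespace SylRank

variable {R : Type} [Ring R] (r : SylRank R) {m n : Type} [Fintype m] [Fintype n]

omit [Fintype m] in
/-- The dimension is monotone. -/
theorem dim_mono {φ ψ : Form R n} (h : φ ≤ ψ) : r.dim φ ≤ r.dim ψ := by
  classical
  obtain ⟨G, H, K, h1, h2⟩ := Form.exists_matrices h
  -- T = [[P, Q, 0], [P', 0, Q']]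
  let T : Matrix (φ.q ⊕ ψ.q) ((n ⊕ φ.p) ⊕ ψ.p) R :=
    Matrix.fromBlocks (Matrix.fromCols φ.P φ.Q) 0 (Matrix.fromCols ψ.P 0) ψ.Q
  have hT1 : r.rk T ≤ r.rk (Matrix.fromCols φ.P φ.Q) + r.rk ψ.Q := by
    rw [← r.add]
    refine r.le_of_eq_mul (Matrix.fromBlocks 1 0 K 1)
      (Matrix.fromBlocks 1 0 (-(Matrix.fromCols G H)) 1) ?_
    have e1 : ψ.P = K * φ.P - ψ.Q * G := by rw [← h1]; abel
    have e2 : (0 : Matrix ψ.q φ.p R) = K * φ.Q - ψ.Q * H := by rw [h2]; abel
    have e3 : Matrix.fromCols ψ.P (0 : Matrix ψ.q φ.p R) =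
        K * Matrix.fromCols φ.P φ.Q + ψ.Q * -(Matrix.fromCols G H) := by
      rw [Matrix.mul_neg, Matrix.mul_fromCols, Matrix.mul_fromCols]
      ext i (j | j)
      · have := congrFun (congrFun e1 i) j
        simp only [Matrix.sub_apply] at this
        simp [this, sub_eq_add_neg]
      · have := congrFun (congrFun e2 i) j
        simp only [Matrix.sub_apply, Matrix.zero_apply] at this
        simp [this, sub_eq_add_neg]
    simp only [T, Matrix.fromBlocks_multiply, Matrix.one_mul, Matrix.mul_one, Matrix.mul_zero,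
      Matrix.zero_mul, add_zero, zero_add, e3]
  have hT2 : r.rk φ.Q + r.rk (Matrix.fromCols ψ.P ψ.Q) ≤ r.rk T := by
    refine (r.tri φ.Q (Matrix.fromCols φ.P (0 : Matrix φ.q ψ.p R))
      (Matrix.fromCols ψ.P ψ.Q)).trans ?_
    have : Matrix.fromBlocks φ.Q (Matrix.fromCols φ.P (0 : Matrix φ.q ψ.p R)) 0
        (Matrix.fromCols ψ.P ψ.Q) = T.submatrix id (Sum.elim (fun x => Sum.inl (Sum.inr x))
          (Sum.elim (fun x => Sum.inl (Sum.inl x)) Sum.inr)) := by
      ext (i | i) (j | j | j) <;> simp [T]
    rw [this]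
    exact r.submatrix_le _ _ _
  unfold SylRank.dim
  linarith

end SylRank

end Pool.Agent.Helper144_BH
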