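import Pool.Agent.Helper144_BH.Form

/-!
# Operations on pp-formulas
-/

set_option autoImplicit false
open scoped Matrix

namespace Pool.Agent.Helper144_BH

namespace Form

variable {R : Type} [Ring R] {m n : Type} [Fintype m] [Fintype n]
variable {M : Type} [AddCommGroup M] [Module R M]

/-- Conjunction. -/
def inf (φ ψ : Form R n) : Form R n where
  p := φ.p ⊕ ψ.p
  q := φ.q ⊕ ψ.q
  P := Matrix.fromRows φ.P ψ.P
  Q := Matrix.fromBlocks φ.Q 0 0 ψ.Q

/-- Sum. -/
def sup (φ ψ : Form R n) : Form R n where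
  p := n ⊕ (φ.p ⊕ ψ.p)
  q := φ.q ⊕ ψ.q
  P := Matrix.fromRows 0 ψ.P
  Q := Matrix.fromCols (Matrix.fromRows φ.P (-ψ.P)) (Matrix.fromBlocks φ.Q 0 0 ψ.Q)

open Classical in
/-- The formula `v = 0`. -/
noncomputable def bot : Form R n where
  p := Empty
  q := n
  P := 1
  Q := 0

/-- The true formula. -/
def top : Form R n where
  p := Empty
  q := Empty
  P := 0
  Q := 0

open Classical in
/-- The image of a formula under a matrix. -/
noncomputable def image (T : Matrix m n R) (φ : Form R n) : Form R m where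
  p := n ⊕ φ.p
  q := m ⊕ φ.q
  P := Matrix.fromRows 1 0
  Q := Matrix.fromBlocks (-T) 0 φ.P φ.Q

/-- The part of a formula killed by a matrix. -/
def rker (T : Matrix m n R) (φ : Form R n) : Form R n where
  p := φ.p
  q := φ.q ⊕ m
  P := Matrix.fromRows φ.P T
  Q := Matrix.fromRows φ.Q 0

/-- The preimage of a formula under a matrix. -/
def preim (T : Matrix m n R) (ψ : Form R m) : Form R n where
  p := ψ.p
  q := ψ.q
  P := ψ.P * T
  Q := ψ.Q

omit [Fintype m] in
lemma zero_mem_eval (φ : Form R n) : (0 : n → M) ∈ φ.eval M := ⟨0, by simp⟩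

omit [Fintype m] in
lemma add_mem_eval {φ : Form R n} {v w : n → M} (hv : v ∈ φ.eval M) (hw : w ∈ φ.eval M) :
    v + w ∈ φ.eval M := by
  obtain ⟨x, hx⟩ := hv
  obtain ⟨y, hy⟩ := hw
  refine ⟨x + y, ?_⟩
  rw [act_add, act_add]
  have : act φ.P v + act φ.P w + (act φ.Q x + act φ.Q y) =
    (act φ.P v + act φ.Q x) + (act φ.P w + act φ.Q y) := by abel
  rw [this, hx, hy, add_zero]

omit [Fintype m] in
lemma neg_mem_eval {φ : Form R n} {v : n → M} (hv : v ∈ φ.eval M) :
    -v ∈ φ.eval M := by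
  obtain ⟨x, hx⟩ := hv
  refine ⟨-x, ?_⟩
  rw [act_neg, act_neg]
  have : -act φ.P v + -act φ.Q x = -(act φ.P v + act φ.Q x) := by abel
  rw [this, hx, neg_zero]

omit [Fintype m] in
lemma sub_mem_eval {φ : Form R n} {v w : n → M} (hv : v ∈ φ.eval M) (hw : w ∈ φ.eval M) :
    v - w ∈ φ.eval M := by
  rw [sub_eq_add_neg]; exact add_mem_eval hv (neg_mem_eval hw)

omit [Fintype m] in
lemma mem_inf {φ ψ : Form R n} {v : n → M} :
    v ∈ (φ.inf ψ).eval M ↔ v ∈ φ.eval M ∧ v ∈ ψ.eval M := by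
  change (∃ w : φ.p ⊕ ψ.p → M, act (Matrix.fromRows φ.P ψ.P) v +
    act (Matrix.fromBlocks φ.Q 0 0 ψ.Q) w = 0) ↔ _
  constructor
  · rintro ⟨w, hw⟩
    have e : w = Sum.elim (fun i => w (Sum.inl i)) (fun i => w (Sum.inr i)) := by
      funext i; rcases i with i | i <;> rfl
    rw [e] at hw
    rw [act_fromRows, act_fromBlocks, ← Sum.elim_add_add, sumElim_eq_zero] at hw
    simp only [act_zero_left, add_zero, zero_add] at hw
    exact ⟨⟨_, hw.1⟩, ⟨_, hw.2⟩⟩
  · rintro ⟨⟨x, hx⟩, ⟨y, hy⟩⟩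
    refine ⟨Sum.elim x y, ?_⟩
    rw [act_fromRows, act_fromBlocks, ← Sum.elim_add_add, sumElim_eq_zero]
    simp [hx, hy]

omit [Fintype m] in
lemma mem_sup {φ ψ : Form R n} {v : n → M} :
    v ∈ (φ.sup ψ).eval M ↔ ∃ x ∈ φ.eval M, ∃ y ∈ ψ.eval M, v = x + y := by
  change (∃ w : n ⊕ (φ.p ⊕ ψ.p) → M, act (Matrix.fromRows (0 : Matrix φ.q n R) ψ.P) v +
    act (Matrix.fromCols (Matrix.fromRows φ.P (-ψ.P)) (Matrix.fromBlocks φ.Q 0 0 ψ.Q)) w =
      (0 : φ.q ⊕ ψ.q → M)) ↔ _
  constructor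
  · rintro ⟨w, hw⟩
    have e : w = Sum.elim (fun i => w (Sum.inl i)) (Sum.elim (fun i => w (Sum.inr (Sum.inl i)))
        (fun i => w (Sum.inr (Sum.inr i)))) := by
      funext i; rcases i with i | i | i <;> rfl
    rw [e] at hw
    rw [act_fromRows, act_fromCols, act_fromRows, act_fromBlocks, ← Sum.elim_add_add,
      ← Sum.elim_add_add, sumElim_eq_zero] at hw
    simp only [act_zero_left, add_zero, zero_add, act_neg_left] at hw
    refine ⟨_, ⟨_, hw.1⟩, v - fun i => w (Sum.inl i), ⟨fun i => w (Sum.inr (Sum.inr i)), ?_⟩,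
      by abel⟩
    rw [act_sub, sub_eq_add_neg, add_assoc]
    exact hw.2
  · rintro ⟨x, ⟨x', hx⟩, y, ⟨y', hy⟩, rfl⟩
    refine ⟨Sum.elim x (Sum.elim x' y'), ?_⟩
    rw [act_fromRows, act_fromCols, act_fromRows, act_fromBlocks, ← Sum.elim_add_add,
      ← Sum.elim_add_add, sumElim_eq_zero]
    simp only [act_zero_left, add_zero, zero_add, act_neg_left, hx, true_and, act_add]
    rw [← hy]; abel

omit [Fintype m] in
lemma mem_bot {v : n → M} : v ∈ (bot : Form R n).eval M ↔ v = 0 := by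
  classical
  change (∃ w : Empty → M, act (1 : Matrix n n R) v + act (0 : Matrix n Empty R) w = 0) ↔ _
  constructor
  · rintro ⟨w, hw⟩
    rw [act_zero_left, add_zero] at hw
    convert hw using 1
    exact (act_one v).symm
  · rintro rfl
    exact ⟨0, by simp⟩

omit [Fintype m] in
lemma mem_top {v : n → M} : v ∈ (top : Form R n).eval M :=
  ⟨fun i => i.elim, funext fun i => i.elim⟩

lemma mem_image {T : Matrix m n R} {φ : Form R n} {u : m → M} :
    u ∈ (image T φ).eval M ↔ ∃ v ∈ φ.eval M, u = act T v := by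
  classical
  change (∃ w : n ⊕ φ.p → M, act (Matrix.fromRows (1 : Matrix m m R) (0 : Matrix φ.q m R)) u +
    act (Matrix.fromBlocks (-T) 0 φ.P φ.Q) w = 0) ↔ _
  constructor
  · rintro ⟨w, hw⟩
    have e : w = Sum.elim (fun i => w (Sum.inl i)) (fun i => w (Sum.inr i)) := by
      funext i; rcases i with i | i <;> rfl
    rw [e] at hw
    rw [act_fromRows, act_fromBlocks, ← Sum.elim_add_add, sumElim_eq_zero] at hw
    simp only [act_zero_left, add_zero, zero_add, act_neg_left, act_one] at hw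
    exact ⟨_, ⟨_, hw.2⟩, by rw [← sub_eq_zero, sub_eq_add_neg]; exact hw.1⟩
  · rintro ⟨v, ⟨w, hw⟩, rfl⟩
    refine ⟨Sum.elim v w, ?_⟩
    rw [act_fromRows, act_fromBlocks, ← Sum.elim_add_add, sumElim_eq_zero]
    simp [act_neg_left, hw]

lemma mem_rker {T : Matrix m n R} {φ : Form R n} {v : n → M} :
    v ∈ (rker T φ).eval M ↔ v ∈ φ.eval M ∧ act T v = 0 := by
  change (∃ w : φ.p → M, act (Matrix.fromRows φ.P T) v +
    act (Matrix.fromRows φ.Q (0 : Matrix m φ.p R)) w = 0) ↔ _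
  constructor
  · rintro ⟨w, hw⟩
    rw [act_fromRows, act_fromRows, ← Sum.elim_add_add, sumElim_eq_zero] at hw
    simp only [act_zero_left, add_zero] at hw
    exact ⟨⟨_, hw.1⟩, hw.2⟩
  · rintro ⟨⟨w, hw⟩, h⟩
    refine ⟨w, ?_⟩
    rw [act_fromRows, act_fromRows, ← Sum.elim_add_add, sumElim_eq_zero]
    simp [hw, h]

lemma mem_preim {T : Matrix m n R} {ψ : Form R m} {v : n → M} :
    v ∈ (preim T ψ).eval M ↔ act T v ∈ ψ.eval M := by
  change (∃ w : ψ.p → M, act (ψ.P * T) v + act ψ.Q w = 0) ↔ _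
  constructor
  · rintro ⟨w, hw⟩
    refine ⟨w, ?_⟩
    rwa [act_mul] at hw
  · rintro ⟨w, hw⟩
    refine ⟨w, ?_⟩
    rwa [act_mul]

end Form

namespace SylRank

open Form
open scoped Classical

variable {R : Type} [Ring R] (r : SylRank R) {m n : Type} [Fintype m] [Fintype n]

lemma dim_def (φ : Form R n) : r.dim φ =
    r.rk (1 : Matrix n n R) - r.rk (Matrix.fromCols φ.P φ.Q) + r.rk φ.Q := rfl

lemma dim_inf (φ ψ : Form R n) : r.dim (φ.inf ψ) = r.rk (1 : Matrix n n R) -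
    r.rk (Matrix.fromCols (Matrix.fromRows φ.P ψ.P) (Matrix.fromBlocks φ.Q 0 0 ψ.Q)) +
    r.rk (Matrix.fromBlocks φ.Q 0 0 ψ.Q) := rfl

lemma dim_sup (φ ψ : Form R n) : r.dim (φ.sup ψ) = r.rk (1 : Matrix n n R) -
    r.rk (Matrix.fromCols (Matrix.fromRows (0 : Matrix φ.q n R) ψ.P)
      (Matrix.fromCols (Matrix.fromRows φ.P (-ψ.P)) (Matrix.fromBlocks φ.Q 0 0 ψ.Q))) +
    r.rk (Matrix.fromCols (Matrix.fromRows φ.P (-ψ.P)) (Matrix.fromBlocks φ.Q 0 0 ψ.Q)) := rfl

lemma dim_image (T : Matrix m n R) (φ : Form R n) : r.dim (image T φ) =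
    r.rk (1 : Matrix m m R) -
    r.rk (Matrix.fromCols (Matrix.fromRows (1 : Matrix m m R) (0 : Matrix φ.q m R))
      (Matrix.fromBlocks (-T) 0 φ.P φ.Q)) +
    r.rk (Matrix.fromBlocks (-T) 0 φ.P φ.Q) := rfl

lemma dim_rker (T : Matrix m n R) (φ : Form R n) : r.dim (rker T φ) =
    r.rk (1 : Matrix n n R) -
    r.rk (Matrix.fromCols (Matrix.fromRows φ.P T) (Matrix.fromRows φ.Q (0 : Matrix m φ.p R))) +
    r.rk (Matrix.fromRows φ.Q (0 : Matrix m φ.p R)) := rfl

lemma dim_bot' : r.dim (bot : Form R n) = r.rk (1 : Matrix n n R) -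
    r.rk (Matrix.fromCols (1 : Matrix n n R) (0 : Matrix n Empty R)) +
    r.rk (0 : Matrix n Empty R) := rfl

lemma dim_top' : r.dim (top : Form R n) = r.rk (1 : Matrix n n R) -
    r.rk (Matrix.fromCols (0 : Matrix Empty n R) (0 : Matrix Empty Empty R)) +
    r.rk (0 : Matrix Empty Empty R) := rfl

lemma dim_bot : r.dim (bot : Form R n) = 0 := by
  rw [dim_bot']
  have h1 : r.rk (Matrix.fromCols (1 : Matrix n n R) (0 : Matrix n Empty R)) =
      r.rk (1 : Matrix n n R) := by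
    apply le_antisymm
    · refine (r.fromCols_le _ _).trans ?_
      rw [r.zero (0 : Matrix n Empty R) rfl, add_zero]
    · exact r.le_fromCols_left _ _
  rw [r.zero (0 : Matrix n Empty R) rfl, h1]
  ring

/-- Modularity of the dimension. -/
lemma dim_modular (φ ψ : Form R n) :
    r.dim (φ.sup ψ) + r.dim (φ.inf ψ) = r.dim φ + r.dim ψ := by
  rw [dim_sup, dim_inf, dim_def, dim_def]
  have h1 : r.rk (Matrix.fromCols (Matrix.fromRows (0 : Matrix φ.q n R) ψ.P)
      (Matrix.fromCols (Matrix.fromRows φ.P (-ψ.P)) (Matrix.fromBlocks φ.Q 0 0 ψ.Q))) =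
      r.rk (Matrix.fromCols φ.P φ.Q) + r.rk (Matrix.fromCols ψ.P ψ.Q) := by
    rw [← r.add]
    -- columns: n ⊕ (n ⊕ (φ.p ⊕ ψ.p))
    let V : Matrix ((n ⊕ φ.p) ⊕ (n ⊕ ψ.p)) (n ⊕ (n ⊕ (φ.p ⊕ ψ.p))) R :=
      Matrix.fromCols (Matrix.fromRows 0 (Matrix.fromRows 1 0))
        (Matrix.fromCols (Matrix.fromRows (Matrix.fromRows 1 0) (Matrix.fromRows (-1) 0))
          (Matrix.fromCols (Matrix.fromRows (Matrix.fromRows 0 1) 0)
            (Matrix.fromRows 0 (Matrix.fromRows 0 1))))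
    let V' : Matrix (n ⊕ (n ⊕ (φ.p ⊕ ψ.p))) ((n ⊕ φ.p) ⊕ (n ⊕ ψ.p)) R :=
      Matrix.fromCols
        (Matrix.fromCols (Matrix.fromRows 1 (Matrix.fromRows 1 0))
          (Matrix.fromRows 0 (Matrix.fromRows 0 (Matrix.fromRows 1 0))))
        (Matrix.fromCols (Matrix.fromRows 1 0)
          (Matrix.fromRows 0 (Matrix.fromRows 0 (Matrix.fromRows 0 1))))
    apply le_antisymm
    · refine r.le_of_eq_mul 1 V ?_
      rw [Matrix.one_mul]
      ext (i | i) (j | j | j | j) <;>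
        simp [V, Matrix.mul_apply, Fintype.sum_sum_type, Matrix.one_apply]
    · refine r.le_of_eq_mul 1 V' ?_
      rw [Matrix.one_mul]
      ext (i | i) ((j | j) | (j | j)) <;>
        simp [V', Matrix.mul_apply, Fintype.sum_sum_type, Matrix.one_apply]
  have h2 : r.rk (Matrix.fromCols (Matrix.fromRows φ.P (-ψ.P))
      (Matrix.fromBlocks φ.Q 0 0 ψ.Q)) = r.rk (Matrix.fromCols (Matrix.fromRows φ.P ψ.P)
      (Matrix.fromBlocks φ.Q 0 0 ψ.Q)) := by
    have key : ∀ (a b : Matrix ψ.q n R) (c d : Matrix ψ.q ψ.p R), a = -b → c = -d →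
        r.rk (Matrix.fromCols (Matrix.fromRows φ.P a) (Matrix.fromBlocks φ.Q 0 0 c)) ≤
        r.rk (Matrix.fromCols (Matrix.fromRows φ.P b) (Matrix.fromBlocks φ.Q 0 0 d)) := by
      rintro a b c d rfl rfl
      refine r.le_of_eq_mul (Matrix.fromBlocks 1 0 0 (-1)) 1 ?_
      rw [Matrix.mul_one]
      ext (i | i) (j | j | j) <;>
        simp [Matrix.mul_apply, Fintype.sum_sum_type, Matrix.one_apply]
    have key2 : ∀ (b : Matrix ψ.q n R) (c d : Matrix ψ.q ψ.p R), c = -d →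
        r.rk (Matrix.fromCols (Matrix.fromRows φ.P b) (Matrix.fromBlocks φ.Q 0 0 c)) ≤
        r.rk (Matrix.fromCols (Matrix.fromRows φ.P b) (Matrix.fromBlocks φ.Q 0 0 d)) := by
      rintro b c d rfl
      refine r.le_of_eq_mul 1 (Matrix.fromBlocks 1 0 0 (Matrix.fromBlocks 1 0 0 (-1))) ?_
      rw [Matrix.one_mul]
      ext (i | i) (j | j | j) <;>
        simp [Matrix.mul_apply, Fintype.sum_sum_type, Matrix.one_apply]
    apply le_antisymm
    · exact (key _ ψ.P _ (-ψ.Q) rfl (by simp)).trans (key2 _ _ _ rfl)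
    · exact (key _ (-ψ.P) _ (-ψ.Q) (by simp) (by simp)).trans (key2 _ _ _ rfl)
  rw [h1, h2, r.add]
  ring

/-- Transfer: dimension of an image. -/
lemma dim_transfer (T : Matrix m n R) (φ : Form R n) :
    r.dim (image T φ) + r.dim (rker T φ) = r.dim φ := by
  rw [dim_image, dim_rker, dim_def]
  have h1 : r.rk (Matrix.fromCols (Matrix.fromRows (1 : Matrix m m R) (0 : Matrix φ.q m R))
      (Matrix.fromBlocks (-T) 0 φ.P φ.Q)) =
      r.rk (1 : Matrix m m R) + r.rk (Matrix.fromCols φ.P φ.Q) := by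
    rw [← r.add]
    apply le_antisymm
    · refine r.le_of_eq_mul 1 (Matrix.fromBlocks 1 (Matrix.fromCols (-T) 0) 0 1) ?_
      rw [Matrix.one_mul]
      ext (i | i) (j | j | j) <;>
        simp [Matrix.mul_apply, Fintype.sum_sum_type, Matrix.one_apply]
    · refine r.le_of_eq_mul 1 (Matrix.fromBlocks 1 (Matrix.fromCols T 0) 0 1) ?_
      rw [Matrix.one_mul]
      ext (i | i) (j | j | j) <;>
        simp [Matrix.mul_apply, Fintype.sum_sum_type, Matrix.one_apply]
  have h2 : r.rk (Matrix.fromBlocks (-T) 0 φ.P φ.Q) =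
      r.rk (Matrix.fromCols (Matrix.fromRows φ.P T) (Matrix.fromRows φ.Q 0)) := by
    apply le_antisymm
    · refine r.le_of_eq_mul (Matrix.fromBlocks 0 (-1) 1 0) 1 ?_
      rw [Matrix.mul_one]
      ext (i | i) (j | j) <;>
        simp [Matrix.mul_apply, Fintype.sum_sum_type, Matrix.one_apply]
    · refine r.le_of_eq_mul (Matrix.fromBlocks 0 1 (-1) 0) 1 ?_
      rw [Matrix.mul_one]
      ext (i | i) (j | j) <;>
        simp [Matrix.mul_apply, Fintype.sum_sum_type, Matrix.one_apply]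
  have h3 : r.rk (Matrix.fromRows φ.Q (0 : Matrix m φ.p R)) = r.rk φ.Q := by
    apply le_antisymm
    · refine r.le_of_eq_mul (Matrix.fromRows 1 0) 1 ?_
      rw [Matrix.mul_one]
      ext (i | i) j <;> simp [Matrix.mul_apply, Matrix.one_apply]
    · have : φ.Q = (Matrix.fromRows φ.Q (0 : Matrix m φ.p R)).submatrix Sum.inl id := by
        ext; simp
      conv_lhs => rw [this]
      exact r.submatrix_le _ _ _
  rw [h1, h2, h3]
  ring

lemma dim_rker_top (T : Matrix m n R) : r.dim (rker T top) =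
    r.rk (1 : Matrix n n R) -
    r.rk (Matrix.fromCols (Matrix.fromRows (0 : Matrix Empty n R) T)
      (Matrix.fromRows (0 : Matrix Empty Empty R) (0 : Matrix m Empty R))) +
    r.rk (Matrix.fromRows (0 : Matrix Empty Empty R) (0 : Matrix m Empty R)) := rfl

lemma dim_image_top (T : Matrix m n R) : r.dim (image T top) = r.rk T := by
  have h := r.dim_transfer T (top : Form R n)
  rw [dim_top', dim_rker_top] at h
  have h0 : r.rk (Matrix.fromCols (0 : Matrix Empty n R) (0 : Matrix Empty Empty R)) = 0 :=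
    r.zero _ (by ext i; exact i.elim)
  have h0' : r.rk (0 : Matrix Empty Empty R) = 0 := r.zero _ rfl
  have h4 : r.rk (Matrix.fromRows (0 : Matrix Empty Empty R) (0 : Matrix m Empty R)) = 0 :=
    r.zero _ (by ext i j; exact j.elim)
  have h5 : r.rk (Matrix.fromCols (Matrix.fromRows (0 : Matrix Empty n R) T)
      (Matrix.fromRows (0 : Matrix Empty Empty R) (0 : Matrix m Empty R))) = r.rk T := by
    apply le_antisymm
    · refine r.le_of_eq_mul (Matrix.fromRows 0 1) (Matrix.fromCols 1 0) ?_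
      ext (i | i) (j | j)
      · exact i.elim
      · exact i.elim
      · simp [Matrix.mul_apply, Matrix.one_apply]
      · exact j.elim
    · have : T = (Matrix.fromCols (Matrix.fromRows (0 : Matrix Empty n R) T)
        (Matrix.fromRows (0 : Matrix Empty Empty R) (0 : Matrix m Empty R))).submatrix
          Sum.inr Sum.inl := by ext; simp
      conv_lhs => rw [this]
      exact r.submatrix_le _ _ _
  rw [h0, h0', h4, h5] at h
  linarith

end SylRank

end Pool.Agent.Helper144_BH
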