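import Mathlib

/-!
# Rank functions on matrices over a ring, and the dimension of pp-formulas

For the Blackadar-Handelman problem MP_8d0139_an.
`PreRank` is a nonnegative function on rectangular matrices over a ring which is monotone under
multiplication and additive on block diagonal matrices.  `SylRank` is a Sylvester matrix rank
function: it is in addition superadditive on block triangular matrices.
-/

set_option autoImplicit false
open scoped Matrix

namespace Pool.Agent.Helper144_BH

/-- A nonnegative function on rectangular matrices, monotone under multiplication and additive on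
block diagonal matrices. -/
structure PreRank (R : Type) [Ring R] where
  rk : ∀ {m n : Type} [Fintype m] [Fintype n], Matrix m n R → ℝ
  nonneg : ∀ {m n : Type} [Fintype m] [Fintype n] (X : Matrix m n R), 0 ≤ rk X
  mul_le_right : ∀ {l m n : Type} [Fintype l] [Fintype m] [Fintype n]
    (Y : Matrix l m R) (X : Matrix m n R), rk (Y * X) ≤ rk X
  mul_le_left : ∀ {l m n : Type} [Fintype l] [Fintype m] [Fintype n]
    (Y : Matrix l m R) (X : Matrix m n R), rk (Y * X) ≤ rk Y
  add : ∀ {m n m' n' : Type} [Fintype m] [Fintype n] [Fintype m'] [Fintype n']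
    (X : Matrix m n R) (Y : Matrix m' n' R), rk (Matrix.fromBlocks X 0 0 Y) = rk X + rk Y

/-- A Sylvester matrix rank function (not normalised). -/
structure SylRank (R : Type) [Ring R] extends PreRank R where
  tri : ∀ {m n m' n' : Type} [Fintype m] [Fintype n] [Fintype m'] [Fintype n']
    (X : Matrix m n R) (Z : Matrix m n' R) (Y : Matrix m' n' R),
    rk X + rk Y ≤ rk (Matrix.fromBlocks X Z 0 Y)

namespace PreRank

variable {R : Type} [Ring R] (r : PreRank R)

variable {k l m n k' l' m' n' : Type} [Fintype k] [Fintype l] [Fintype m] [Fintype n]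
  [Fintype k'] [Fintype l'] [Fintype m'] [Fintype n']

lemma mul_mul_le (U : Matrix k l R) (X : Matrix l m R) (V : Matrix m n R) :
    r.rk (U * X * V) ≤ r.rk X :=
  (r.mul_le_left _ _).trans (r.mul_le_right _ _)

lemma le_of_eq_mul {Y : Matrix k n R} {X : Matrix l m R} (U : Matrix k l R) (V : Matrix m n R)
    (h : Y = U * X * V) : r.rk Y ≤ r.rk X := by
  rw [h]; exact r.mul_mul_le U X V

lemma submatrix_le (X : Matrix l m R) (e : k → l) (f : n → m) :
    r.rk (X.submatrix e f) ≤ r.rk X := by
  classical
  refine r.le_of_eq_mul ((1 : Matrix l l R).submatrix e id) ((1 : Matrix m m R).submatrix id f) ?_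
  ext i j
  simp [Matrix.mul_apply, Matrix.one_apply]

lemma submatrix_equiv (X : Matrix l m R) (e : k ≃ l) (f : n ≃ m) :
    r.rk (X.submatrix e f) = r.rk X := by
  apply le_antisymm (r.submatrix_le X e f)
  have h := r.submatrix_le (X.submatrix e f) e.symm f.symm
  simpa using h

lemma zero (X : Matrix l m R) (hX : X = 0) : r.rk X = 0 := by
  subst hX
  have h1 : r.rk (Matrix.fromBlocks (0 : Matrix l m R) 0 0 (0 : Matrix l m R)) ≤
      r.rk (0 : Matrix l m R) := by
    have : (Matrix.fromBlocks (0 : Matrix l m R) 0 0 (0 : Matrix l m R)) =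
        (0 : Matrix l m R).submatrix (Sum.elim id id) (Sum.elim id id) := by
      ext (i | i) (j | j) <;> simp
    rw [this]
    exact r.submatrix_le _ _ _
  rw [r.add] at h1
  have := r.nonneg (0 : Matrix l m R)
  linarith

lemma neg (X : Matrix l m R) : r.rk (-X) = r.rk X := by
  classical
  apply le_antisymm
  · exact r.le_of_eq_mul (-1) 1 (by simp)
  · exact r.le_of_eq_mul (-1) 1 (by simp)

/-- A block row has rank at most the sum of the ranks. -/
lemma fromCols_le (X : Matrix l m R) (Y : Matrix l n R) :
    r.rk (Matrix.fromCols X Y) ≤ r.rk X + r.rk Y := by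
  classical
  rw [← r.add]
  refine r.le_of_eq_mul (Matrix.fromCols (1 : Matrix l l R) 1) 1 ?_
  ext i (j | j) <;> simp [Matrix.mul_apply, Matrix.fromCols, Fintype.sum_sum_type,
    Matrix.one_apply]

lemma le_fromCols_left (X : Matrix l m R) (Y : Matrix l n R) :
    r.rk X ≤ r.rk (Matrix.fromCols X Y) := by
  have : X = (Matrix.fromCols X Y).submatrix id Sum.inl := by ext; simp
  conv_lhs => rw [this]
  exact r.submatrix_le _ _ _

lemma le_fromCols_right (X : Matrix l m R) (Y : Matrix l n R) :
    r.rk Y ≤ r.rk (Matrix.fromCols X Y) := by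
  have : Y = (Matrix.fromCols X Y).submatrix id Sum.inr := by ext; simp
  conv_lhs => rw [this]
  exact r.submatrix_le _ _ _

lemma add_le (X Y : Matrix l m R) : r.rk (X + Y) ≤ r.rk X + r.rk Y := by
  classical
  refine le_trans ?_ (r.fromCols_le X Y)
  refine r.le_of_eq_mul 1 (Matrix.fromRows (1 : Matrix m m R) 1) ?_
  rw [Matrix.one_mul, Matrix.fromCols_mul_fromRows]
  simp

end PreRank

end Pool.Agent.Helper144_BH
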