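import Pool.Agent.Helper144_BH.CFacts
import Pool.Agent.Helper144_BH.Rank

/-!
# Cuntz comparison of positive matrices over a C*-algebra; dimension functions and their ranks
-/

set_option autoImplicit false
open scoped Matrix

namespace Pool.Agent.Helper144_BH

section

variable {A : Type} [CStarAlgebra A]
variable {k l m n : Type} [Fintype k] [Fintype l] [Fintype m] [Fintype n]

/-- Positive matrices. -/
def Pos (a : Matrix n n A) : Prop := ∃ x : Matrix n n A, a = xᴴ * x

/-- Cuntz subequivalence. -/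
def Cz (a : Matrix m m A) (b : Matrix n n A) : Prop :=
  a ∈ closure (Set.range fun x : Matrix m n A => x * b * xᴴ)

omit [Fintype m] in
lemma Cz.conj (x : Matrix m n A) (b : Matrix n n A) : Cz (x * b * xᴴ) b :=
  subset_closure ⟨x, rfl⟩

omit [Fintype m] in
lemma Cz.of_eq {a : Matrix m m A} {b : Matrix n n A} (x : Matrix m n A) (h : a = x * b * xᴴ) :
    Cz a b := h ▸ Cz.conj x b

omit [Fintype m] in
lemma Cz.closed {a : Matrix m m A} {b : Matrix n n A} (h : a ∈ closure {c | Cz c b}) :
    Cz a b := by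
  unfold Cz at *
  exact closure_minimal (fun c hc => hc) isClosed_closure h

omit [Fintype l] in
lemma Cz.trans {a : Matrix l l A} {b : Matrix m m A} {c : Matrix n n A} (h1 : Cz a b)
    (h2 : Cz b c) : Cz a c := by
  unfold Cz at h1
  refine closure_minimal ?_ isClosed_closure h1
  rintro _ ⟨x, rfl⟩
  have hc : Continuous fun b' : Matrix m m A => x * b' * xᴴ :=
    (Continuous.matrix_mul continuous_const continuous_id).matrix_mul continuous_const
  have h3 := map_mem_closure hc h2 (t := Set.range fun z : Matrix l n A => z * c * zᴴ) (by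
    rintro _ ⟨y, rfl⟩
    exact ⟨x * y, by simp only [Matrix.conjTranspose_mul, Matrix.mul_assoc]⟩)
  exact h3

lemma Cz.refl (a : Matrix n n A) : Cz a a := by
  classical
  exact Cz.of_eq 1 (by simp)

/-- A matrix is positive iff it is nonnegative in the C*-algebra of matrices. -/
lemma pos_iff [PartialOrder A] [StarOrderedRing A] {a : Matrix n n A} :
    Pos a ↔ 0 ≤ (CStarMatrix.ofMatrix a : CStarMatrix n n A) := by
  classical
  rw [nonneg_iff_gen]
  rfl

lemma pos_mul_conjTranspose (X : Matrix m n A) : Pos (X * Xᴴ) := by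
  let _ : PartialOrder A := CStarAlgebra.spectralOrder A
  let _ : StarOrderedRing A := CStarAlgebra.spectralOrderedRing A
  classical
  rcases isEmpty_or_nonempty m with hm | ⟨⟨i0⟩⟩
  · exact ⟨0, by ext i; exact (hm.false i).elim⟩
  let Y : n → Matrix m m A := fun j => Matrix.of fun i k => if k = i0 then X i j else 0
  have h : X * Xᴴ = ∑ j, Y j * (Y j)ᴴ := by
    ext i i'
    rw [Matrix.sum_apply, Matrix.mul_apply]
    refine Finset.sum_congr rfl fun j _ => ?_
    rw [Matrix.mul_apply, Finset.sum_eq_single i0]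
    · simp [Y]
    · intro b _ hb
      simp [Y, hb]
    · intro h; exact absurd (Finset.mem_univ _) h
  rw [pos_iff, h]
  have h2 : (CStarMatrix.ofMatrix (∑ j, Y j * (Y j)ᴴ) : CStarMatrix m m A) =
      ∑ j, CStarMatrix.ofMatrix (Y j) * star (CStarMatrix.ofMatrix (Y j)) := by
    rw [CStarMatrix.ofMatrix_eq_ofMatrixStarAlgEquiv, map_sum]
    rfl
  rw [h2]
  exact Finset.sum_nonneg fun j _ => mul_star_self_nonneg _

lemma pos_conjTranspose_mul (X : Matrix m n A) : Pos (Xᴴ * X) := by
  have := pos_mul_conjTranspose Xᴴ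
  rwa [Matrix.conjTranspose_conjTranspose] at this

lemma Pos.conjTranspose_eq {a : Matrix n n A} (h : Pos a) : aᴴ = a := by
  obtain ⟨x, rfl⟩ := h
  simp

lemma Cz_sq {a : Matrix n n A} (ha : Pos a) : Cz a (a * a) := by
  let _ : PartialOrder A := CStarAlgebra.spectralOrder A
  let _ : StarOrderedRing A := CStarAlgebra.spectralOrderedRing A
  classical
  have h0 : 0 ≤ (CStarMatrix.ofMatrix a : CStarMatrix n n A) := pos_iff.1 ha
  exact cuntz_sq_gen h0

lemma Cz_mul_conjTranspose (X : Matrix m n A) : Cz (X * Xᴴ) (Xᴴ * X) := by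
  refine (Cz_sq (pos_mul_conjTranspose X)).trans ?_
  refine Cz.of_eq X ?_
  simp only [Matrix.mul_assoc]

lemma Cz_conjTranspose_mul (X : Matrix m n A) : Cz (Xᴴ * X) (X * Xᴴ) := by
  have := Cz_mul_conjTranspose Xᴴ
  rwa [Matrix.conjTranspose_conjTranspose] at this

/-- The basic comparison: `L W R` has smaller rank than `W`. -/
lemma Cz_mul_mul (L : Matrix k l A) (W : Matrix l m A) (R : Matrix m n A) :
    Cz ((L * W * R)ᴴ * (L * W * R)) (Wᴴ * W) := by
  refine (Cz_conjTranspose_mul (L * W * R)).trans ?_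
  have h1 : Cz (L * W * R * (L * W * R)ᴴ) ((W * R) * (W * R)ᴴ) := by
    refine Cz.of_eq L ?_
    simp only [Matrix.conjTranspose_mul, Matrix.mul_assoc]
  refine h1.trans ((Cz_mul_conjTranspose (W * R)).trans ?_)
  refine Cz.of_eq Rᴴ ?_
  simp only [Matrix.conjTranspose_mul, Matrix.conjTranspose_conjTranspose, Matrix.mul_assoc]

lemma Cz_sq' {a : Matrix n n A} (ha : Pos a) : Cz (a * a) a := by
  obtain ⟨x, rfl⟩ := ha
  have h1 : Cz (xᴴ * x * (xᴴ * x)) (x * xᴴ) := by
    refine Cz.of_eq xᴴ ?_
    simp only [Matrix.conjTranspose_conjTranspose, Matrix.mul_assoc]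
  exact h1.trans (Cz_mul_conjTranspose x)

lemma pos_fromBlocks {a : Matrix m m A} {b : Matrix n n A} (ha : Pos a) (hb : Pos b) :
    Pos (Matrix.fromBlocks a 0 0 b) := by
  obtain ⟨x, rfl⟩ := ha
  obtain ⟨y, rfl⟩ := hb
  refine ⟨Matrix.fromBlocks x 0 0 y, ?_⟩
  simp [Matrix.fromBlocks_conjTranspose, Matrix.fromBlocks_multiply]

lemma pos_submatrix {a : Matrix m m A} (ha : Pos a) (e : n → m) : Pos (a.submatrix e e) := by
  obtain ⟨x, rfl⟩ := ha
  have : (xᴴ * x).submatrix e e = (x.submatrix id e)ᴴ * (x.submatrix id e) := by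
    ext i j
    simp [Matrix.mul_apply]
  rw [this]
  exact pos_conjTranspose_mul _

omit [Fintype n] in
lemma Cz_submatrix (a : Matrix m m A) (e : n → m) : Cz (a.submatrix e e) a := by
  classical
  refine Cz.of_eq ((1 : Matrix m m A).submatrix e id) ?_
  ext i j
  simp [Matrix.mul_apply, Matrix.one_apply]

omit [Fintype m] in
lemma Cz_submatrix_equiv (a : Matrix m m A) (e : n ≃ m) : Cz a (a.submatrix e e) := by
  have := Cz_submatrix (a.submatrix e e) e.symm
  simpa using this

omit [Fintype k] [Fintype l] in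
lemma Cz_fromBlocks {a : Matrix k k A} {b : Matrix l l A} {a' : Matrix m m A} {b' : Matrix n n A}
    (h1 : Cz a a') (h2 : Cz b b') :
    Cz (Matrix.fromBlocks a 0 0 b) (Matrix.fromBlocks a' 0 0 b') := by
  have h := Set.mk_mem_prod h1 h2
  rw [← closure_prod_eq] at h
  have hc : Continuous fun p : Matrix k k A × Matrix l l A => Matrix.fromBlocks p.1 0 0 p.2 :=
    Continuous.matrix_fromBlocks continuous_fst continuous_const continuous_const continuous_snd
  have h3 := map_mem_closure hc h (t := Set.range fun z : Matrix (k ⊕ l) (m ⊕ n) A =>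
      z * Matrix.fromBlocks a' 0 0 b' * zᴴ) (by
    rintro ⟨_, _⟩ ⟨⟨x, rfl⟩, ⟨y, rfl⟩⟩
    refine ⟨Matrix.fromBlocks x 0 0 y, ?_⟩
    simp [Matrix.fromBlocks_conjTranspose, Matrix.fromBlocks_multiply])
  exact h3

end

/-- Dimension functions, on positive matrices with arbitrary finite index types. -/
structure DimF (A : Type) [CStarAlgebra A] where
  d : ∀ {n : Type} [Fintype n], Matrix n n A → ℝ
  nonneg : ∀ {n : Type} [Fintype n] {a : Matrix n n A}, Pos a → 0 ≤ d a
  add : ∀ {m n : Type} [Fintype m] [Fintype n] {a : Matrix m m A} {b : Matrix n n A},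
    Pos a → Pos b → d (Matrix.fromBlocks a 0 0 b) = d a + d b
  mono : ∀ {m n : Type} [Fintype m] [Fintype n] {a : Matrix m m A} {b : Matrix n n A},
    Pos a → Pos b → Cz a b → d a ≤ d b

section

variable {A : Type} [CStarAlgebra A]

/-- The Sylvester rank function of a dimension function. -/
noncomputable def DimF.rank (δ : DimF A) : SylRank A where
  rk X := δ.d (Xᴴ * X)
  nonneg X := δ.nonneg (pos_conjTranspose_mul X)
  mul_le_right {l m n} _ _ _ Y X := by
    classical
    apply δ.mono (pos_conjTranspose_mul _) (pos_conjTranspose_mul _)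
    have := Cz_mul_mul Y X (1 : Matrix n n A)
    rwa [Matrix.mul_one] at this
  mul_le_left {l m n} _ _ _ Y X := by
    classical
    apply δ.mono (pos_conjTranspose_mul _) (pos_conjTranspose_mul _)
    have := Cz_mul_mul (1 : Matrix l l A) Y X
    rwa [Matrix.one_mul] at this
  add X Y := by
    rw [← δ.add (pos_conjTranspose_mul _) (pos_conjTranspose_mul _)]
    simp [Matrix.fromBlocks_conjTranspose, Matrix.fromBlocks_multiply]
  tri {m n m' n'} _ _ _ _ X Z Y := by
    classical
    rw [← δ.add (pos_conjTranspose_mul _) (pos_conjTranspose_mul _)]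
    apply δ.mono (pos_fromBlocks (pos_conjTranspose_mul _) (pos_conjTranspose_mul _))
      (pos_conjTranspose_mul _)
    apply Cz.closed
    -- the path t ↦ W_t
    let W : ℝ → Matrix (m ⊕ m') (n ⊕ n') A := fun t => Matrix.fromBlocks X (t • Z) 0 Y
    have hW : Continuous W :=
      Continuous.matrix_fromBlocks continuous_const (continuous_id.smul continuous_const)
        continuous_const continuous_const
    have hWW : Continuous fun t => (W t)ᴴ * W t := hW.matrix_conjTranspose.matrix_mul hW
    have h0 : (W 0)ᴴ * W 0 = Matrix.fromBlocks (Xᴴ * X) 0 0 (Yᴴ * Y) := by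
      simp [W, Matrix.fromBlocks_conjTranspose, Matrix.fromBlocks_multiply]
    rw [← h0]
    have hlim : Filter.Tendsto (fun j : ℕ => (W (1 / ((j : ℝ) + 1)))ᴴ * W (1 / ((j : ℝ) + 1)))
        Filter.atTop (nhds ((W 0)ᴴ * W 0)) :=
      (hWW.tendsto 0).comp tendsto_one_div_add_atTop_nhds_zero_nat
    refine mem_closure_of_tendsto hlim (Filter.Eventually.of_forall fun j => ?_)
    set t : ℝ := 1 / ((j : ℝ) + 1) with ht
    have ht0 : t ≠ 0 := by rw [ht]; positivity
    have hWt : W t = Matrix.fromBlocks (1 : Matrix m m A) 0 0 (t⁻¹ • (1 : Matrix m' m' A)) *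
        Matrix.fromBlocks X Z 0 Y *
        Matrix.fromBlocks (1 : Matrix n n A) 0 0 (t • (1 : Matrix n' n' A)) := by
      simp only [W, Matrix.fromBlocks_multiply]
      congr 1 <;> simp [smul_smul, ht0]
    show Cz _ _
    rw [hWt]
    exact Cz_mul_mul _ _ _

lemma DimF.rank_rk (δ : DimF A) {m n : Type} [Fintype m] [Fintype n] (X : Matrix m n A) :
    δ.rank.rk X = δ.d (Xᴴ * X) := rfl

/-- On positive matrices the rank is the dimension function. -/
lemma DimF.rank_pos (δ : DimF A) {n : Type} [Fintype n] {a : Matrix n n A} (ha : Pos a) :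
    δ.rank.rk a = δ.d a := by
  rw [DimF.rank_rk, ha.conjTranspose_eq]
  have h : Pos (a * a) := by
    have := pos_conjTranspose_mul a
    rwa [ha.conjTranspose_eq] at this
  exact le_antisymm (δ.mono h ha (Cz_sq' ha)) (δ.mono ha h (Cz_sq ha))

end

end Pool.Agent.Helper144_BH
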