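import Pool.Agent.Helper144_BH.Windows
import Pool.Agent.Helper144_BH.MatCuntz

/-!
# Components of Cuntz-monotone rank functions are Cuntz-monotone
-/

set_option autoImplicit false
open scoped Matrix

namespace Pool.Agent.Helper144_BH

/-- `r` is a component of the rank function of a dimension function. -/
def IsComp {A : Type} [CStarAlgebra A] (δ : DimF A) (r1 r2 : PreRank A) : Prop :=
  ∀ {m n : Type} [Fintype m] [Fintype n] (X : Matrix m n A),
    r1.rk X + r2.rk X = δ.rank.rk X

section

variable {A : Type} [CStarAlgebra A] {δ : DimF A} {r1 r2 : PreRank A} (h : IsComp δ r1 r2)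
variable {k l m n : Type} [Fintype k] [Fintype l] [Fintype m] [Fintype n]
include h

lemma comp_eq {X : Matrix k l A} {Y : Matrix m n A} (h1 : r1.rk X ≤ r1.rk Y)
    (h2 : r2.rk X ≤ r2.rk Y) (h3 : δ.rank.rk Y ≤ δ.rank.rk X) : r1.rk X = r1.rk Y := by
  have e1 := h X
  have e2 := h Y
  linarith

lemma comp_conj_mul (X : Matrix m n A) : r1.rk (Xᴴ * X) = r1.rk X := by
  apply comp_eq h (r1.mul_le_right _ _) (r2.mul_le_right _ _)
  rw [δ.rank_pos (pos_conjTranspose_mul X), δ.rank_rk]

lemma comp_mul_conj (X : Matrix m n A) : r1.rk (X * Xᴴ) = r1.rk X := by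
  apply comp_eq h (r1.mul_le_left _ _) (r2.mul_le_left _ _)
  rw [δ.rank_pos (pos_mul_conjTranspose X), δ.rank_rk]
  exact δ.mono (pos_conjTranspose_mul X) (pos_mul_conjTranspose X) (Cz_conjTranspose_mul X)

lemma comp_rid {s : Matrix l n A} {Z : Matrix l k A}
    (hZ : Z ∈ closure (Set.range fun y : Matrix n k A => s * y)) : r1.rk Z ≤ r1.rk s := by
  classical
  let Y : Matrix l (n ⊕ k) A := Matrix.fromCols s Z
  have hY : Y ∈ closure (Set.range fun w : Matrix n (n ⊕ k) A => s * w) := by
    have hc : Continuous fun Z' : Matrix l k A => (Matrix.fromCols s Z' : Matrix l (n ⊕ k) A) := by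
      apply continuous_matrix
      rintro i (j | j)
      · exact continuous_const
      · exact continuous_id.matrix_elem i j
    have h3 := map_mem_closure hc hZ (t := Set.range fun w : Matrix n (n ⊕ k) A => s * w) (by
      rintro _ ⟨y, rfl⟩
      exact ⟨Matrix.fromCols 1 y, by simp only [Matrix.mul_fromCols, Matrix.mul_one]⟩)
    exact h3
  have hCz : Cz (Yᴴ * Y) (sᴴ * s) := by
    apply Cz.closed
    have hc : Continuous fun Y' : Matrix l (n ⊕ k) A => Y'ᴴ * Y' :=
      continuous_id.matrix_conjTranspose.matrix_mul continuous_id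
    have h3 := map_mem_closure hc hY (t := {c | Cz c (sᴴ * s)}) (by
      rintro _ ⟨w, rfl⟩
      have := Cz_mul_mul (1 : Matrix l l A) s w
      rwa [Matrix.one_mul] at this)
    exact h3
  have h1 : r1.rk s = r1.rk Y := by
    apply comp_eq h (r1.le_fromCols_left _ _) (r2.le_fromCols_left _ _)
    rw [δ.rank_rk, δ.rank_rk]
    exact δ.mono (pos_conjTranspose_mul _) (pos_conjTranspose_mul _) hCz
  rw [h1]
  exact r1.le_fromCols_right _ _

/-- Additivity on orthogonal selfadjoint matrices. -/
lemma comp_orth {x y : Matrix n n A} (hx : xᴴ = x) (hy : yᴴ = y) (hxy : x * y = 0) :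
    r1.rk x + r1.rk y = r1.rk (x + y) := by
  have hyx : y * x = 0 := by
    have := congrArg Matrix.conjTranspose hxy
    rwa [Matrix.conjTranspose_mul, hx, hy, Matrix.conjTranspose_zero] at this
  let X : Matrix (n ⊕ n) n A := Matrix.fromRows x y
  have e1 : Xᴴ * X = (x + y)ᴴ * (x + y) := by
    simp only [X]
    rw [Matrix.conjTranspose_fromRows_eq_fromCols_conjTranspose, Matrix.fromCols_mul_fromRows,
      Matrix.conjTranspose_add, hx, hy, add_mul, mul_add, mul_add, hxy, hyx]
    abel
  have e2 : X * Xᴴ = Matrix.fromBlocks (x * xᴴ) 0 0 (y * yᴴ) := by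
    simp only [X]
    rw [Matrix.conjTranspose_fromRows_eq_fromCols_conjTranspose, Matrix.fromRows_mul_fromCols,
      hx, hy, hxy, hyx]
  have e3 := comp_conj_mul h X
  have e4 := comp_mul_conj h X
  rw [e1, comp_conj_mul h] at e3
  rw [e2, r1.add, comp_mul_conj h, comp_mul_conj h] at e4
  rw [e3, e4]

section model

variable {B : Type} [CStarAlgebra B] [PartialOrder B] [StarOrderedRing B]

/-- Comparison of functions of a selfadjoint element. -/
lemma comp_cfc_le (φ : B ≃+* Matrix n n A) (hs : ∀ x, φ (star x) = (φ x)ᴴ) (hc : Continuous φ)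
    (a : B) {F G : ℝ → ℝ} (hF : ContinuousOn F (spectrum ℝ a))
    (hG : ContinuousOn G (spectrum ℝ a))
    (hF0 : ∀ t ∈ spectrum ℝ a, 0 ≤ F t) (hG0 : ∀ t ∈ spectrum ℝ a, 0 ≤ G t)
    (hFG : ∀ t ∈ spectrum ℝ a, 0 < F t → 0 < G t) :
    r1.rk (φ (cfc F a)) ≤ r1.rk (φ (cfc G a)) := by
  have hsF : star (cfc F a) = cfc F a := star_cfc a F
  have hpos : ∀ x : B, 0 ≤ x → Pos (φ x) := by
    intro x hx
    obtain ⟨c, rfl⟩ := nonneg_iff_gen.1 hx
    exact ⟨φ c, by rw [map_mul, hs]⟩
  have hFG' : ContinuousOn (fun t => F t * G t) (spectrum ℝ a) := hF.mul hG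
  have e : cfc (fun t => F t * G t) a = cfc F a * cfc G a := cfc_mul F G a hF hG
  have h1 : r1.rk (φ (cfc (fun t => F t * G t) a)) = r1.rk (φ (cfc F a)) := by
    rw [e, map_mul]
    apply comp_eq h (r1.mul_le_left _ _) (r2.mul_le_left _ _)
    rw [← map_mul, ← e]
    rw [δ.rank_pos (hpos _ (cfc_nonneg hF0)),
      δ.rank_pos (hpos _ (cfc_nonneg fun t ht => mul_nonneg (hF0 t ht) (hG0 t ht)))]
    apply δ.mono (hpos _ (cfc_nonneg hF0))
      (hpos _ (cfc_nonneg fun t ht => mul_nonneg (hF0 t ht) (hG0 t ht)))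
    have h2 := cfc_cuntz a (F := F) (G := fun t => F t * G t) hF hFG' hF0
      (fun t ht => mul_nonneg (hF0 t ht) (hG0 t ht)) (fun t ht h => mul_pos h (hFG t ht h))
    have h3 := map_mem_closure hc h2 (t := Set.range fun z : Matrix n n A =>
      z * φ (cfc (fun t => F t * G t) a) * zᴴ) (by
        rintro _ ⟨x, rfl⟩
        exact ⟨φ x, by simp only [map_mul, hs]⟩)
    exact h3
  rw [← h1, e, map_mul]
  exact r1.mul_le_right _ _

end model

end

section bd

variable {A : Type} [CStarAlgebra A] {n : Type} [Fintype n]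

/-- The block diagonal matrix with all the diagonal blocks equal to `c`. -/
def bd (ι : Type) [DecidableEq ι] (c : Matrix n n A) : Matrix (ι × n) (ι × n) A :=
  Matrix.of fun p q => if p.1 = q.1 then c p.2 q.2 else 0

lemma bd_le (r : PreRank A) (c : Matrix n n A) (m : ℕ) :
    r.rk (bd (Fin m) c) ≤ m * r.rk c := by
  induction m with
  | zero =>
    rw [r.zero _ (by ext i; exact i.1.elim0)]
    simp
  | succ m ih =>
    have h1 : r.rk (bd (Fin (m + 1)) c) ≤
        r.rk (Matrix.fromBlocks (bd (Fin m) c) 0 0 c) := by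
      let e : Fin (m + 1) × n → (Fin m × n) ⊕ n := fun p =>
        Fin.lastCases (motive := fun _ => (Fin m × n) ⊕ n) (Sum.inr p.2)
          (fun i => Sum.inl (i, p.2)) p.1
      have he : bd (Fin (m + 1)) c = (Matrix.fromBlocks (bd (Fin m) c) 0 0 c).submatrix e e := by
        ext ⟨i, x⟩ ⟨j, y⟩
        refine Fin.lastCases ?_ (fun i => ?_) i <;> refine Fin.lastCases ?_ (fun j => ?_) j
        · simp [bd, e]
        · simp [bd, e, (Fin.castSucc_lt_last j).ne']
        · simp [bd, e, (Fin.castSucc_lt_last i).ne]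
        · simp [bd, e]
      rw [he]
      exact r.submatrix_le _ _ _
    rw [r.add] at h1
    push_cast
    linarith

lemma le_bd (r : PreRank A) (c : Matrix n n A) (m : ℕ) :
    m * r.rk c ≤ r.rk (bd (Fin m) c) := by
  induction m with
  | zero =>
    have := r.nonneg (bd (Fin 0) c)
    simpa using this
  | succ m ih =>
    have h1 : r.rk (Matrix.fromBlocks (bd (Fin m) c) 0 0 c) ≤ r.rk (bd (Fin (m + 1)) c) := by
      let e : (Fin m × n) ⊕ n → Fin (m + 1) × n :=
        Sum.elim (fun p => (p.1.castSucc, p.2)) (fun x => (Fin.last m, x))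
      have he : Matrix.fromBlocks (bd (Fin m) c) 0 0 c = (bd (Fin (m + 1)) c).submatrix e e := by
        ext (⟨i, x⟩ | x) (⟨j, y⟩ | y)
        · simp [bd, e]
        · simp [bd, e, (Fin.castSucc_lt_last i).ne]
        · simp [bd, e, (Fin.castSucc_lt_last j).ne']
        · simp [bd, e]
      rw [he]
      exact r.submatrix_le _ _ _
    rw [r.add] at h1
    push_cast
    linarith

end bd

section main

variable {A : Type} [CStarAlgebra A] {δ : DimF A} {r1 r2 : PreRank A} (h : IsComp δ r1 r2)
variable {n : Type} [Fintype n]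
include h

theorem comp_model {B : Type} [CStarAlgebra B] [PartialOrder B] [StarOrderedRing B]
    (φ : B ≃+* Matrix n n A) (hs : ∀ x, φ (star x) = (φ x)ᴴ) (hc : Continuous φ)
    (hc' : Continuous φ.symm) {a b : Matrix n n A} (ha : Pos a) (hb : Pos b) (hab : Cz a b) :
    r1.rk a ≤ r1.rk b := by
  classical
  have hs' : ∀ x, φ.symm xᴴ = star (φ.symm x) := by
    intro x
    apply φ.injective
    rw [hs, φ.apply_symm_apply, φ.apply_symm_apply]
  obtain ⟨s, rfl⟩ := hb
  set a' : B := φ.symm a with ha'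
  set s' : B := φ.symm s with hs''
  have hφa : φ a' = a := φ.apply_symm_apply a
  have hφs : φ s' = s := φ.apply_symm_apply s
  have ha0 : 0 ≤ a' := by
    obtain ⟨x, hx⟩ := ha
    rw [nonneg_iff_gen]
    exact ⟨φ.symm x, by rw [ha', hx, map_mul, hs']⟩
  have hasa : IsSelfAdjoint a' := ha0.isSelfAdjoint
  have hspec0 : ∀ t ∈ spectrum ℝ a', 0 ≤ t := fun t ht => spectrum_nonneg_of_nonneg ha0 ht
  have hspec : ∀ t ∈ spectrum ℝ a', t ≤ ‖a'‖ := by
    intro t ht
    rcases subsingleton_or_nontrivial B with h | h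
    · rw [spectrum.of_subsingleton] at ht
      exact ht.elim
    · exact (le_abs_self t).trans (spectrum.norm_le_norm_of_mem ht)
  have hab' : a' ∈ closure (Set.range fun x : B => x * (star s' * s') * star x) := by
    have h3 := map_mem_closure hc' hab (t := Set.range fun x : B =>
      x * (star s' * s') * star x) (by
        rintro _ ⟨x, rfl⟩
        exact ⟨φ.symm x, by simp only [map_mul, hs', hs'']⟩)
    exact h3
  -- (i) the hotel
  have hi : ∀ M : ℕ, 0 < M → ∀ r m : ℕ,
      m * r1.rk (φ (cfc (Ff M r) a')) ≤ ((m : ℝ) + 1) * r1.rk s := by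
    intro M hM r m
    obtain ⟨ζ, hζ1, hζ2⟩ := exists_windows ha0 hab' hM r m
    let asm : (Fin (m + 1) × Fin m → Matrix n n A) →
        Matrix (Fin (m + 1) × n) (Fin m × n) A :=
      fun f => Matrix.of fun p q => f (p.1, q.1) p.2 q.2
    have hasm : Continuous asm := by
      apply continuous_matrix
      intro p q
      exact (continuous_apply (p.1, q.1)).matrix_elem p.2 q.2
    let f : Fin (m + 1) × Fin m → Matrix n n A := fun p => φ (ζ p.2 p.1)
    let Z := asm f
    have hZ1 : Zᴴ * Z = bd (Fin m) (φ (cfc (Ff M r) a')) := by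
      ext ⟨c, y⟩ ⟨c', y'⟩
      have e1 : (Zᴴ * Z) (c, y) (c', y') =
          ∑ i : Fin (m + 1), ((φ (ζ c i))ᴴ * φ (ζ c' i)) y y' := by
        rw [Matrix.mul_apply, Fintype.sum_prod_type]
        refine Finset.sum_congr rfl fun i _ => ?_
        rw [Matrix.mul_apply]
        rfl
      have e2 : ∑ i : Fin (m + 1), ((φ (ζ c i))ᴴ * φ (ζ c' i)) y y' =
          φ (inn m (ζ c) (ζ c')) y y' := by
        simp only [inn]
        rw [← Fin.sum_univ_eq_sum_range (fun i => star (ζ c i) * ζ c' i) (m + 1), map_sum,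
          Matrix.sum_apply]
        refine Finset.sum_congr rfl fun i _ => ?_
        rw [map_mul, hs]
      rw [e1, e2, hζ2 c c' c.2 c'.2]
      simp only [bd, Matrix.of_apply, Fin.val_inj]
      by_cases hcc : c = c'
      · simp [hcc]
      · simp [hcc]
    have hZ2 : Z ∈ closure (Set.range fun y : Matrix (Fin (m + 1) × n) (Fin m × n) A =>
        bd (Fin (m + 1)) s * y) := by
      have hf : f ∈ closure (Set.pi Set.univ
          (fun _ : Fin (m + 1) × Fin m => Set.range fun y : Matrix n n A => s * y)) := by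
        rw [closure_pi_set]
        rintro ⟨i, c⟩ _
        have h1 := hζ1 c i (Nat.lt_succ_iff.1 i.2) c.2
        have h3 := map_mem_closure hc h1 (t := Set.range fun y : Matrix n n A => s * y) (by
          rintro _ ⟨x, rfl⟩
          exact ⟨φ x, by simp only [map_mul, hφs]⟩)
        exact h3
      have h3 := map_mem_closure hasm hf
        (t := Set.range fun y : Matrix (Fin (m + 1) × n) (Fin m × n) A =>
          bd (Fin (m + 1)) s * y) (by
          intro g hg
          have hg' : ∀ p, ∃ y : Matrix n n A, s * y = g p := fun p => hg p trivial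
          choose y hy using hg'
          refine ⟨asm y, ?_⟩
          ext ⟨i, x⟩ ⟨c, z⟩
          simp only [Matrix.mul_apply, Fintype.sum_prod_type, bd, Matrix.of_apply, asm]
          rw [← hy, Matrix.mul_apply, Finset.sum_eq_single i]
          · simp
          · intro j _ hj
            simp [Ne.symm hj]
          · intro h; exact absurd (Finset.mem_univ _) h)
      exact h3
    calc m * r1.rk (φ (cfc (Ff M r) a')) ≤ r1.rk (bd (Fin m) (φ (cfc (Ff M r) a'))) :=
          le_bd r1 _ m
      _ = r1.rk Z := by rw [← hZ1, comp_conj_mul h]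
      _ ≤ r1.rk (bd (Fin (m + 1)) s) := comp_rid h hZ2
      _ ≤ ((m + 1 : ℕ) : ℝ) * r1.rk s := bd_le r1 s (m + 1)
      _ = ((m : ℝ) + 1) * r1.rk s := by push_cast; ring
  -- (ii) covering
  have hii : ∀ M : ℕ, 0 < M → ∀ r : ℕ,
      r1.rk a ≤ r1.rk (φ (cfc (Ff M r) a')) + r1.rk (φ (cfc (Gf M r) a')) := by
    intro M hM r
    have cF := continuousOn_Ff hM r (norm_nonneg a') hspec
    have cG := (continuous_Gf hM r).continuousOn (s := spectrum ℝ a')
    have h1 := comp_cfc_le h φ hs hc a' (F := fun t => t) (G := fun t => Ff M r t + Gf M r t)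
      continuousOn_id (cF.add cG) hspec0
      (fun t _ => add_nonneg (Ff_nonneg M r t) (Gf_nonneg M r t))
      (fun t _ ht => cover hM r ht)
    rw [cfc_id' ℝ a', hφa, cfc_add a' _ _ cF cG, map_add] at h1
    exact h1.trans (r1.add_le _ _)
  -- (iii) the gaps are small on average
  have hiii : ∀ M : ℕ, 0 < M →
      ∑ r ∈ Finset.range M, r1.rk (φ (cfc (Gf M r) a')) ≤ r1.rk a := by
    intro M hM
    have cG := fun r => continuous_Gf hM r
    have cH : ∀ j, Continuous fun t => ∑ r ∈ Finset.range j, Gf M r t :=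
      fun j => continuous_finsetSum _ fun r _ => cG r
    have key : ∀ j ≤ M, ∑ r ∈ Finset.range j, r1.rk (φ (cfc (Gf M r) a')) ≤
        r1.rk (φ (cfc (fun t => ∑ r ∈ Finset.range j, Gf M r t) a')) := by
      intro j
      induction j with
      | zero => intro _; simpa using r1.nonneg _
      | succ j ih =>
        intro hj
        have ih' := ih (by omega)
        simp only [Finset.sum_range_succ]
        rw [cfc_add a' (fun t => ∑ r ∈ Finset.range j, Gf M r t) (Gf M j) (cH j).continuousOn
          (cG j).continuousOn, map_add]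
        have e1 : (φ (cfc (fun t => ∑ r ∈ Finset.range j, Gf M r t) a'))ᴴ =
            φ (cfc (fun t => ∑ r ∈ Finset.range j, Gf M r t) a') := by
          rw [← hs, star_cfc]
        have e2 : (φ (cfc (Gf M j) a'))ᴴ = φ (cfc (Gf M j) a') := by
          rw [← hs, star_cfc]
        have e3 : φ (cfc (fun t => ∑ r ∈ Finset.range j, Gf M r t) a') * φ (cfc (Gf M j) a') =
            0 := by
          rw [← map_mul, cfc_mul_eq a' (cH j) (cG j) (h := fun _ => 0) ?_, cfc_const_zero ℝ a',
            map_zero]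
          intro t
          rw [Finset.sum_mul]
          apply Finset.sum_eq_zero
          intro r hr
          have hr' := Finset.mem_range.1 hr
          exact Gf_mul (by omega) (by omega) (by omega) t
        rw [← comp_orth h e1 e2 e3]
        linarith
    refine (key M le_rfl).trans ?_
    have h1 := comp_cfc_le h φ hs hc a' (F := fun t => ∑ r ∈ Finset.range M, Gf M r t)
      (G := fun t => t) (cH M).continuousOn continuousOn_id
      (fun t _ => Finset.sum_nonneg fun r _ => Gf_nonneg M r t) hspec0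
      (by
        intro t _ ht
        obtain ⟨r, _, hr⟩ := Finset.exists_lt_of_sum_lt (s := Finset.range M)
          (f := fun _ => (0 : ℝ)) (g := fun r => Gf M r t) (by simpa using ht)
        exact Gf_pos_imp hr)
    rw [cfc_id' ℝ a', hφa] at h1
    exact h1
  -- conclusion
  rw [comp_conj_mul h]
  have hfin : ∀ N : ℕ, 0 < N → (N : ℝ) * (r1.rk a - r1.rk s) ≤ r1.rk a + r1.rk s := by
    intro N hN
    have hN' : (0 : ℝ) < N := by exact_mod_cast hN
    -- some family has a small gap part
    obtain ⟨r, hr, hr2⟩ : ∃ r ∈ Finset.range N,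
        r1.rk (φ (cfc (Gf N r) a')) ≤ r1.rk a / N := by
      apply Finset.exists_le_of_sum_le (Finset.nonempty_range_iff.2 hN.ne')
      rw [Finset.sum_const, Finset.card_range, nsmul_eq_mul]
      refine (hiii N hN).trans (le_of_eq ?_)
      field_simp
    have h1 := hi N hN r N
    have h2 := hii N hN r
    have h3 : (N : ℝ) * r1.rk (φ (cfc (Gf N r) a')) ≤ r1.rk a := by
      rw [le_div_iff₀ hN'] at hr2
      linarith
    nlinarith
  by_contra hlt
  rw [not_le] at hlt
  have hpos : 0 < r1.rk a - r1.rk s := by linarith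
  obtain ⟨N, hN⟩ := exists_nat_gt ((r1.rk a + r1.rk s) / (r1.rk a - r1.rk s))
  have h0 : 0 ≤ (r1.rk a + r1.rk s) / (r1.rk a - r1.rk s) :=
    div_nonneg (add_nonneg (r1.nonneg _) (r1.nonneg _)) hpos.le
  have hN0 : 0 < N := by
    have : (0 : ℝ) < N := lt_of_le_of_lt h0 hN
    exact_mod_cast this
  have h1 := hfin N hN0
  rw [div_lt_iff₀ hpos] at hN
  linarith

theorem comp_mono_same {a b : Matrix n n A} (ha : Pos a) (hb : Pos b) (hab : Cz a b) :
    r1.rk a ≤ r1.rk b := by
  classical
  let _ : PartialOrder A := CStarAlgebra.spectralOrder A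
  let _ : StarOrderedRing A := CStarAlgebra.spectralOrderedRing A
  exact comp_model h (CStarMatrix.ofMatrixRingEquiv (n := n) (A := A)).symm (fun _ => rfl)
    continuous_id continuous_id ha hb hab

theorem comp_mono {m : Type} [Fintype m] {a : Matrix m m A} {b : Matrix n n A} (ha : Pos a)
    (hb : Pos b) (hab : Cz a b) : r1.rk a ≤ r1.rk b := by
  classical
  have h1 : r1.rk (Matrix.fromBlocks a (0 : Matrix m n A) 0 (0 : Matrix n n A)) = r1.rk a := by
    rw [r1.add, r1.zero (0 : Matrix n n A) rfl, add_zero]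
  have h2 : r1.rk (Matrix.fromBlocks (0 : Matrix m m A) (0 : Matrix m n A) 0 b) = r1.rk b := by
    rw [r1.add, r1.zero (0 : Matrix m m A) rfl, zero_add]
  rw [← h1, ← h2]
  have p0 : ∀ {k : Type} [Fintype k], Pos (0 : Matrix k k A) := fun {k} _ => ⟨0, by simp⟩
  apply comp_mono_same h (pos_fromBlocks ha p0) (pos_fromBlocks p0 hb)
  have hc : Continuous fun x : Matrix m m A =>
      Matrix.fromBlocks x (0 : Matrix m n A) 0 (0 : Matrix n n A) :=
    Continuous.matrix_fromBlocks continuous_id continuous_const continuous_const continuous_const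
  have h3 := map_mem_closure hc hab (t := Set.range fun z : Matrix (m ⊕ n) (m ⊕ n) A =>
      z * Matrix.fromBlocks (0 : Matrix m m A) (0 : Matrix m n A) 0 b * zᴴ) (by
    rintro _ ⟨x, rfl⟩
    refine ⟨Matrix.fromBlocks 0 x 0 0, ?_⟩
    simp [Matrix.fromBlocks_conjTranspose, Matrix.fromBlocks_multiply])
  exact h3

end main

end Pool.Agent.Helper144_BH
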