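import Pool.Agent.Helper144_BH.FormOps

/-!
# The positive part of a signed dimension function on pp-formulas
-/

set_option autoImplicit false
open scoped Matrix

namespace Pool.Agent.Helper144_BH

namespace Form

variable {R : Type} [Ring R] {m n : Type} [Fintype m] [Fintype n]

omit [Fintype m] in
lemma inf_le_left (φ ψ : Form R n) : φ.inf ψ ≤ φ := fun _ _ _ _ h => (mem_inf.1 h).1

omit [Fintype m] in
lemma inf_le_right (φ ψ : Form R n) : φ.inf ψ ≤ ψ := fun _ _ _ _ h => (mem_inf.1 h).2

omit [Fintype m] in
lemma le_inf {φ ψ χ : Form R n} (h1 : χ ≤ φ) (h2 : χ ≤ ψ) : χ ≤ φ.inf ψ :=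
  fun M _ _ _ h => mem_inf.2 ⟨h1 M h, h2 M h⟩

omit [Fintype m] in
lemma inf_mono {φ φ' ψ ψ' : Form R n} (h1 : φ ≤ φ') (h2 : ψ ≤ ψ') : φ.inf ψ ≤ φ'.inf ψ' :=
  le_inf ((inf_le_left _ _).trans h1) ((inf_le_right _ _).trans h2)

omit [Fintype m] in
lemma le_sup_left (φ ψ : Form R n) : φ ≤ φ.sup ψ :=
  fun _ _ _ v h => mem_sup.2 ⟨v, h, 0, zero_mem_eval _, (add_zero v).symm⟩

omit [Fintype m] in
lemma le_sup_right (φ ψ : Form R n) : ψ ≤ φ.sup ψ :=
  fun _ _ _ v h => mem_sup.2 ⟨0, zero_mem_eval _, v, h, (zero_add v).symm⟩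

omit [Fintype m] in
lemma sup_le {φ ψ χ : Form R n} (h1 : φ ≤ χ) (h2 : ψ ≤ χ) : φ.sup ψ ≤ χ := by
  intro M _ _ v h
  obtain ⟨x, hx, y, hy, rfl⟩ := mem_sup.1 h
  exact add_mem_eval (h1 M hx) (h2 M hy)

omit [Fintype m] in
lemma sup_mono {φ φ' ψ ψ' : Form R n} (h1 : φ ≤ φ') (h2 : ψ ≤ ψ') : φ.sup ψ ≤ φ'.sup ψ' :=
  sup_le (h1.trans (le_sup_left _ _)) (h2.trans (le_sup_right _ _))

omit [Fintype m] in
lemma bot_le (φ : Form R n) : bot ≤ φ := by
  intro M _ _ v h
  rw [mem_bot.1 h]
  exact zero_mem_eval _

omit [Fintype m] in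
lemma le_top (φ : Form R n) : φ ≤ top := fun _ _ _ _ _ => mem_top

lemma image_mono (T : Matrix m n R) {φ ψ : Form R n} (h : φ ≤ ψ) : image T φ ≤ image T ψ := by
  intro M _ _ u hu
  obtain ⟨v, hv, rfl⟩ := mem_image.1 hu
  exact mem_image.2 ⟨v, h M hv, rfl⟩

lemma rker_le (T : Matrix m n R) (φ : Form R n) : rker T φ ≤ φ :=
  fun _ _ _ _ h => (mem_rker.1 h).1

lemma rker_mono (T : Matrix m n R) {φ ψ : Form R n} (h : φ ≤ ψ) : rker T φ ≤ rker T ψ :=
  fun M _ _ _ hv => mem_rker.2 ⟨h M (mem_rker.1 hv).1, (mem_rker.1 hv).2⟩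

lemma preim_mono (T : Matrix m n R) {φ ψ : Form R m} (h : φ ≤ ψ) : preim T φ ≤ preim T ψ :=
  fun M _ _ _ hv => mem_preim.2 (h M (mem_preim.1 hv))

end Form

/-- A signed dimension function on pp-formulas. -/
structure SDim (R : Type) [Ring R] where
  d : ∀ {n : Type} [Fintype n], Form R n → ℝ
  congr : ∀ {n : Type} [Fintype n] {φ ψ : Form R n}, φ ≤ ψ → ψ ≤ φ → d φ = d ψ
  modular : ∀ {n : Type} [Fintype n] (φ ψ : Form R n),
    d (φ.sup ψ) + d (φ.inf ψ) = d φ + d ψ
  transfer : ∀ {m n : Type} [Fintype m] [Fintype n] (T : Matrix m n R) (φ : Form R n),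
    d (Form.image T φ) + d (Form.rker T φ) = d φ
  bot : ∀ {n : Type} [Fintype n], d (Form.bot : Form R n) = 0

namespace SDim

variable {R : Type} [Ring R]

/-- Monotone dimension functions. -/
def Mono (u : SDim R) : Prop :=
  ∀ {n : Type} [Fintype n] {φ ψ : Form R n}, φ ≤ ψ → u.d φ ≤ u.d ψ

/-- The difference of two signed dimension functions. -/
noncomputable def sub (u v : SDim R) : SDim R where
  d φ := u.d φ - v.d φ
  congr h1 h2 := by rw [u.congr h1 h2, v.congr h1 h2]
  modular φ ψ := by have := u.modular φ ψ; have := v.modular φ ψ; linarith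
  transfer T φ := by have := u.transfer T φ; have := v.transfer T φ; linarith
  bot := by intro n _; rw [u.bot, v.bot, sub_zero]

@[simp] lemma sub_d (u v : SDim R) {n : Type} [Fintype n] (φ : Form R n) :
    (u.sub v).d φ = u.d φ - v.d φ := rfl

/-- `u` dominates the positive variation of `v`. -/
def Dom (v u : SDim R) : Prop :=
  ∀ {n : Type} [Fintype n] {φ ψ : Form R n}, φ ≤ ψ → max (v.d ψ - v.d φ) 0 ≤ u.d ψ - u.d φ

variable {m n : Type} [Fintype m] [Fintype n]

/-- Sum of the positive increments of `v` along a chain. -/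
noncomputable def chainSum (v : SDim R) (c : ℕ → Form R n) (k : ℕ) : ℝ :=
  ∑ i ∈ Finset.range k, max (v.d (c (i + 1)) - v.d (c i)) 0

/-- The set of sums over chains in an interval. -/
def varSet (v : SDim R) (x y : Form R n) : Set ℝ :=
  {s | ∃ (k : ℕ) (c : ℕ → Form R n), Monotone c ∧ (∀ i, x ≤ c i) ∧ (∀ i, c i ≤ y) ∧
    s = v.chainSum c k}

/-- The positive variation of `v` over an interval. -/
noncomputable def var (v : SDim R) (x y : Form R n) : ℝ := sSup (v.varSet x y)

lemma chainSum_nonneg (v : SDim R) (c : ℕ → Form R n) (k : ℕ) : 0 ≤ v.chainSum c k :=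
  Finset.sum_nonneg fun _ _ => le_max_right _ _

lemma var_nonneg (v : SDim R) (x y : Form R n) : 0 ≤ v.var x y := by
  apply Real.sSup_nonneg
  rintro _ ⟨k, c, _, _, _, rfl⟩
  exact v.chainSum_nonneg c k

section dom

variable {v u : SDim R} (hb : Dom v u)
include hb

lemma chainSum_le (c : ℕ → Form R n) (hc : Monotone c) (k : ℕ) :
    v.chainSum c k ≤ u.d (c k) - u.d (c 0) := by
  rw [← Finset.sum_range_sub (fun i => u.d (c i))]
  exact Finset.sum_le_sum fun i _ => hb (hc (Nat.le_succ i))

omit [Fintype m] in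
lemma u_mono {φ ψ : Form R n} (h : φ ≤ ψ) : u.d φ ≤ u.d ψ := by
  have := hb h
  have := le_max_right (v.d ψ - v.d φ) 0
  linarith

lemma bddAbove_varSet (x y : Form R n) : BddAbove (v.varSet x y) := by
  refine ⟨u.d y - u.d x, ?_⟩
  rintro _ ⟨k, c, hc, hx, hy, rfl⟩
  have h1 := chainSum_le hb c hc k
  have h2 := u_mono hb (hx 0)
  have h3 := u_mono hb (hy k)
  linarith

lemma chainSum_le_var {x y : Form R n} (c : ℕ → Form R n) (hc : Monotone c) (hx : ∀ i, x ≤ c i)
    (hy : ∀ i, c i ≤ y) (k : ℕ) : v.chainSum c k ≤ v.var x y :=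
  le_csSup (bddAbove_varSet hb x y) ⟨k, c, hc, hx, hy, rfl⟩

omit hb in
lemma var_le {x y : Form R n} {B : ℝ} (hB : 0 ≤ B)
    (h : ∀ (k : ℕ) (c : ℕ → Form R n), Monotone c → (∀ i, x ≤ c i) → (∀ i, c i ≤ y) →
      v.chainSum c k ≤ B) : v.var x y ≤ B := by
  apply Real.sSup_le _ hB
  rintro _ ⟨k, c, hc, hx, hy, rfl⟩
  exact h k c hc hx hy

lemma increment_le_var {x y : Form R n} (hxy : x ≤ y) : v.d y - v.d x ≤ v.var x y := by
  have h := chainSum_le_var hb (x := x) (y := y) (fun i => if i = 0 then x else y)
    (by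
      intro i j hij
      rcases Nat.eq_zero_or_pos i with hi | hi
      · subst hi
        by_cases hj : j = 0
        · simp [hj]
        · simp [hj, hxy]
      · have hj : j ≠ 0 := by omega
        have hi' : i ≠ 0 := by omega
        simp [hi', hj])
    (by intro i; by_cases hi : i = 0 <;> simp [hi, hxy])
    (by intro i; by_cases hi : i = 0 <;> simp [hi, hxy]) 1
  refine le_trans ?_ h
  simp [chainSum]

/-- Transport of the variation along a map of intervals. -/
lemma var_le_of_map {x y : Form R n} {x' y' : Form R m} (F : Form R n → Form R m) (C : ℝ)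
    (h0 : ∀ a b, x ≤ a → a ≤ b → b ≤ y → F a ≤ F b)
    (h1 : ∀ a, x ≤ a → a ≤ y → x' ≤ F a)
    (h2 : ∀ a, x ≤ a → a ≤ y → F a ≤ y')
    (h3 : ∀ a, x ≤ a → a ≤ y → v.d (F a) = v.d a + C) :
    v.var x y ≤ v.var x' y' := by
  apply var_le (v.var_nonneg _ _)
  intro k c hc hx hy
  have : v.chainSum c k = v.chainSum (fun i => F (c i)) k := by
    refine Finset.sum_congr rfl fun i _ => ?_
    simp only
    rw [h3 _ (hx _) (hy _), h3 _ (hx _) (hy _)]
    congr 1
    ring
  rw [this]
  exact chainSum_le_var hb _ (fun i j hij => h0 _ _ (hx _) (hc hij) (hy _))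
    (fun i => h1 _ (hx _) (hy _)) (fun i => h2 _ (hx _) (hy _)) k

lemma var_congr {x y x' y' : Form R n} (h1 : x' ≤ x) (h2 : y ≤ y') :
    v.var x y ≤ v.var x' y' :=
  var_le_of_map hb id 0 (fun _ _ _ h _ => h) (fun _ h _ => h1.trans h) (fun _ _ h => h.trans h2)
    (fun _ _ _ => (add_zero _).symm)

/-- Additivity of the variation. -/
lemma var_add {x y z : Form R n} (hxy : x ≤ y) (hyz : y ≤ z) :
    v.var x z = v.var x y + v.var y z := by
  apply le_antisymm
  · apply var_le (add_nonneg (v.var_nonneg _ _) (v.var_nonneg _ _))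
    intro k c hc hx hz
    have h1 := chainSum_le_var hb (x := x) (y := y) (fun i => (c i).inf y)
      (fun i j hij => Form.inf_mono (hc hij) le_rfl)
      (fun i => Form.le_inf (hx i) hxy) (fun i => Form.inf_le_right _ _) k
    have h2 := chainSum_le_var hb (x := y) (y := z) (fun i => (c i).sup y)
      (fun i j hij => Form.sup_mono (hc hij) le_rfl)
      (fun i => Form.le_sup_right _ _) (fun i => Form.sup_le (hz i) hyz) k
    refine le_trans ?_ (add_le_add h1 h2)
    unfold chainSum
    rw [← Finset.sum_add_distrib]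
    refine Finset.sum_le_sum fun i _ => ?_
    have e1 := v.modular (c i) y
    have e2 := v.modular (c (i + 1)) y
    have a1 := le_max_left (v.d ((c (i + 1)).inf y) - v.d ((c i).inf y)) 0
    have a2 := le_max_right (v.d ((c (i + 1)).inf y) - v.d ((c i).inf y)) 0
    have a3 := le_max_left (v.d ((c (i + 1)).sup y) - v.d ((c i).sup y)) 0
    have a4 := le_max_right (v.d ((c (i + 1)).sup y) - v.d ((c i).sup y)) 0
    apply max_le
    · simp only at *
      linarith
    · exact add_nonneg a2 a4
  · -- concatenation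
    rw [← le_sub_iff_add_le]
    have hne : 0 ≤ v.var x z - v.var y z := sub_nonneg.2 (var_congr hb hxy le_rfl)
    apply var_le hne
    intro k c hc hx hy
    rw [le_sub_comm]
    have hne2 : 0 ≤ v.var x z - v.chainSum c k :=
      sub_nonneg.2 (chainSum_le_var hb c hc hx (fun i => (hy i).trans hyz) k)
    apply var_le hne2
    intro k' c' hc' hx' hy'
    rw [le_sub_iff_add_le, add_comm]
    let e : ℕ → Form R n := fun i => if i ≤ k then c i else c' (i - (k + 1))
    have he : Monotone e := by
      intro i j hij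
      by_cases hj : j ≤ k
      · have hi : i ≤ k := hij.trans hj
        simp only [e, hi, hj, if_true]
        exact hc hij
      · by_cases hi : i ≤ k
        · simp only [e, hi, hj, if_true, if_false]
          exact (hy i).trans (hx' _)
        · simp only [e, hi, hj, if_false]
          exact hc' (by omega)
    have h := chainSum_le_var hb (x := x) (y := z) e he
      (by
        intro i
        by_cases hi : i ≤ k
        · simp only [e, hi, if_true]; exact hx i
        · simp only [e, hi, if_false]; exact hxy.trans (hx' _))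
      (by
        intro i
        by_cases hi : i ≤ k
        · simp only [e, hi, if_true]; exact (hy i).trans hyz
        · simp only [e, hi, if_false]; exact hy' _) (k + 1 + k')
    refine le_trans ?_ h
    unfold chainSum
    rw [Finset.sum_range_add, Finset.sum_range_succ]
    have s1 : ∑ i ∈ Finset.range k, max (v.d (e (i + 1)) - v.d (e i)) 0 =
        ∑ i ∈ Finset.range k, max (v.d (c (i + 1)) - v.d (c i)) 0 := by
      refine Finset.sum_congr rfl fun i hi => ?_
      have hi' : i < k := Finset.mem_range.1 hi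
      have h1 : i + 1 ≤ k := hi'
      have h2 : i ≤ k := hi'.le
      simp only [e, h1, h2, if_true]
    have s2 : ∑ i ∈ Finset.range k', max (v.d (e (k + 1 + i + 1)) - v.d (e (k + 1 + i))) 0 =
        ∑ i ∈ Finset.range k', max (v.d (c' (i + 1)) - v.d (c' i)) 0 := by
      refine Finset.sum_congr rfl fun i hi => ?_
      have h1 : ¬ (k + 1 + i + 1 ≤ k) := by omega
      have h2 : ¬ (k + 1 + i ≤ k) := by omega
      have h3 : k + 1 + i + 1 - (k + 1) = i + 1 := by omega
      have h4 : k + 1 + i - (k + 1) = i := by omega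
      simp only [e, h1, h2, if_false, h3, h4]
    rw [s1, s2]
    have := le_max_right (v.d (e (k + 1)) - v.d (e k)) 0
    linarith

lemma var_modular (x y : Form R n) : v.var (x.inf y) x = v.var y (x.sup y) := by
  apply le_antisymm
  · refine var_le_of_map hb (fun c => c.sup y) (v.d y - v.d (x.inf y))
      (fun a b _ h _ => Form.sup_mono h le_rfl) (fun a _ _ => Form.le_sup_right _ _)
      (fun a _ h => Form.sup_mono h le_rfl) ?_
    intro a h1 h2
    have e := v.modular a y
    have e2 : v.d (a.inf y) = v.d (x.inf y) :=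
      v.congr (Form.inf_mono h2 le_rfl) (Form.le_inf h1 (Form.inf_le_right _ _))
    linarith
  · refine var_le_of_map hb (fun c => c.inf x) (v.d x - v.d (x.sup y))
      (fun a b _ h _ => Form.inf_mono h le_rfl)
      (fun a h _ => Form.le_inf ((Form.inf_le_right _ _).trans h) (Form.inf_le_left _ _))
      (fun a _ h => Form.inf_le_right _ _) ?_
    intro a h1 h2
    have e := v.modular a x
    have e2 : v.d (a.sup x) = v.d (x.sup y) :=
      v.congr (Form.sup_le h2 (Form.le_sup_left _ _))
        (Form.sup_le (Form.le_sup_right _ _) (h1.trans (Form.le_sup_left _ _)))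
    linarith

lemma var_transfer (T : Matrix m n R) (φ : Form R n) :
    v.var (Form.rker T φ) φ = v.var Form.bot (Form.image T φ) := by
  apply le_antisymm
  · refine var_le_of_map hb (fun c => Form.image T c) (- v.d (Form.rker T φ))
      (fun a b _ h _ => Form.image_mono T h) (fun a _ _ => Form.bot_le _)
      (fun a _ h => Form.image_mono T h) ?_
    intro a h1 h2
    have e := v.transfer T a
    have e2 : v.d (Form.rker T a) = v.d (Form.rker T φ) :=
      v.congr (Form.rker_mono T h2)
        (fun M _ _ w hw => Form.mem_rker.2 ⟨h1 M hw, (Form.mem_rker.1 hw).2⟩)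
    linarith
  · refine var_le_of_map hb (fun c => φ.inf (Form.preim T c)) (v.d (Form.rker T φ))
      (fun a b _ h _ => Form.inf_mono le_rfl (Form.preim_mono T h)) ?_
      (fun a _ h => Form.inf_le_left _ _) ?_
    · intro a h1 h2 M _ _ w hw
      obtain ⟨hw1, hw2⟩ := Form.mem_rker.1 hw
      refine Form.mem_inf.2 ⟨hw1, Form.mem_preim.2 ?_⟩
      rw [hw2]
      exact Form.zero_mem_eval _
    · intro a h1 h2
      have e := v.transfer T (φ.inf (Form.preim T a))
      have e1 : v.d (Form.image T (φ.inf (Form.preim T a))) = v.d a := by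
        apply v.congr
        · intro M _ _ w hw
          obtain ⟨x, hx, rfl⟩ := Form.mem_image.1 hw
          exact Form.mem_preim.1 (Form.mem_inf.1 hx).2
        · intro M _ _ w hw
          obtain ⟨x, hx, rfl⟩ := Form.mem_image.1 (h2 M hw)
          exact Form.mem_image.2 ⟨x, Form.mem_inf.2 ⟨hx, Form.mem_preim.2 hw⟩, rfl⟩
      have e2 : v.d (Form.rker T (φ.inf (Form.preim T a))) = v.d (Form.rker T φ) := by
        apply v.congr
        · exact Form.rker_mono T (Form.inf_le_left _ _)
        · intro M _ _ w hw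
          obtain ⟨hw1, hw2⟩ := Form.mem_rker.1 hw
          refine Form.mem_rker.2 ⟨Form.mem_inf.2 ⟨hw1, Form.mem_preim.2 ?_⟩, hw2⟩
          rw [hw2]
          exact Form.zero_mem_eval _
      linarith

/-- The positive part of `v`. -/
noncomputable def pos : SDim R where
  d φ := v.var Form.bot φ
  congr h1 h2 := le_antisymm (var_congr hb le_rfl h1) (var_congr hb le_rfl h2)
  modular φ ψ := by
    have h1 := var_add hb (Form.bot_le ψ) (Form.le_sup_right φ ψ)
    have h2 := var_add hb (Form.bot_le (φ.inf ψ)) (Form.inf_le_left φ ψ)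
    have h3 := var_modular hb φ ψ
    linarith
  transfer T φ := by
    have h1 := var_transfer hb T φ
    have h2 := var_add hb (Form.bot_le (Form.rker T φ)) (Form.rker_le T φ)
    linarith
  bot := by
    intro n _
    apply le_antisymm _ (v.var_nonneg _ _)
    apply var_le le_rfl
    intro k c hc hx hy
    apply le_of_eq
    apply Finset.sum_eq_zero
    intro i _
    rw [v.congr ((hy (i + 1)).trans (hx i)) ((hy i).trans (hx (i + 1)))]
    simp

lemma pos_d (φ : Form R n) : (pos hb).d φ = v.var Form.bot φ := rfl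

lemma pos_sub {φ ψ : Form R n} (h : φ ≤ ψ) : (pos hb).d ψ - (pos hb).d φ = v.var φ ψ := by
  rw [pos_d, pos_d, var_add hb (Form.bot_le φ) h]
  ring

lemma pos_mono : (pos hb).Mono := by
  intro n _ φ ψ h
  have := pos_sub hb h
  have := v.var_nonneg φ ψ
  linarith

/-- If `w` dominates the positive variation of `v` then `w - v⁺` is monotone. -/
lemma sub_pos_mono {w : SDim R} (hw : Dom v w) : (w.sub (pos hb)).Mono := by
  intro n _ φ ψ h
  have h1 := pos_sub hb h
  have h2 : v.var φ ψ ≤ w.d ψ - w.d φ := by
    apply var_le (sub_nonneg.2 (u_mono hw h))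
    intro k c hc hx hy
    have h1 := chainSum_le hw c hc k
    have h2 := u_mono hw (hx 0)
    have h3 := u_mono hw (hy k)
    linarith
  simp only [sub_d]
  linarith

/-- `v⁺ - v` is monotone. -/
lemma pos_sub_mono : ((pos hb).sub v).Mono := by
  intro n _ φ ψ h
  have h1 := pos_sub hb h
  have h2 := increment_le_var hb h
  simp only [sub_d]
  linarith

end dom

end SDim

/-- The signed dimension function of a Sylvester rank function. -/
noncomputable def SylRank.sdim {R : Type} [Ring R] (r : SylRank R) : SDim R where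
  d φ := r.dim φ
  congr h1 h2 := le_antisymm (r.dim_mono h1) (r.dim_mono h2)
  modular := r.dim_modular
  transfer := r.dim_transfer
  bot := r.dim_bot

@[simp] lemma SylRank.sdim_d {R : Type} [Ring R] (r : SylRank R) {n : Type} [Fintype n]
    (φ : Form R n) : r.sdim.d φ = r.dim φ := rfl

lemma SylRank.sdim_mono {R : Type} [Ring R] (r : SylRank R) : r.sdim.Mono := r.dim_mono

/-- A monotone dimension function gives a prerank. -/
noncomputable def SDim.toPreRank {R : Type} [Ring R] (u : SDim R) (hu : u.Mono) : PreRank R where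
  rk X := u.d (Form.image X Form.top)
  nonneg {m n} _ _ X := by
    rw [← u.bot (n := m)]
    exact hu (Form.bot_le _)
  mul_le_right {l m n} _ _ _ Y X := by
    -- image of Y X is the image of the image of X
    have e : u.d (Form.image (Y * X) Form.top) = u.d (Form.image Y (Form.image X Form.top)) := by
      apply u.congr
      · intro M _ _ w hw
        obtain ⟨v, hv, rfl⟩ := Form.mem_image.1 hw
        exact Form.mem_image.2 ⟨act X v, Form.mem_image.2 ⟨v, hv, rfl⟩, act_mul _ _ _⟩
      · intro M _ _ w hw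
        obtain ⟨v, hv, rfl⟩ := Form.mem_image.1 hw
        obtain ⟨z, hz, rfl⟩ := Form.mem_image.1 hv
        exact Form.mem_image.2 ⟨z, hz, (act_mul _ _ _).symm⟩
    have h1 := u.transfer Y (Form.image X Form.top)
    have h2 : 0 ≤ u.d (Form.rker Y (Form.image X Form.top)) := by
      rw [← u.bot (n := m)]
      exact hu (Form.bot_le _)
    rw [e]
    linarith
  mul_le_left Y X := by
    apply hu
    intro M _ _ w hw
    obtain ⟨v, hv, rfl⟩ := Form.mem_image.1 hw
    exact Form.mem_image.2 ⟨act X v, Form.mem_top, act_mul _ _ _⟩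
  add {m n m' n'} _ _ _ _ X Y := by
    classical
    let i1 : Matrix (m ⊕ m') m R := Matrix.fromRows 1 0
    let i2 : Matrix (m ⊕ m') m' R := Matrix.fromRows 0 1
    have a1 : ∀ (M : Type) [AddCommGroup M] [Module R M] (x : m → M),
        act i1 x = Sum.elim x (0 : m' → M) := by
      intro M _ _ x
      simp only [i1]
      rw [act_fromRows]
      simp
    have a2 : ∀ (M : Type) [AddCommGroup M] [Module R M] (x : m' → M),
        act i2 x = Sum.elim (0 : m → M) x := by
      intro M _ _ x
      simp only [i2]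
      rw [act_fromRows]
      simp
    have h1 : u.d (Form.image i1 (Form.image X Form.top)) = u.d (Form.image X Form.top) := by
      have h := u.transfer i1 (Form.image X Form.top)
      have : u.d (Form.rker i1 (Form.image X Form.top)) = 0 := by
        rw [← u.bot (n := m)]
        refine u.congr ?_ (Form.bot_le _)
        intro M _ _ w hw
        have := (Form.mem_rker.1 hw).2
        rw [a1, sumElim_eq_zero] at this
        exact Form.mem_bot.2 this.1
      linarith
    have h2 : u.d (Form.image i2 (Form.image Y Form.top)) = u.d (Form.image Y Form.top) := by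
      have h := u.transfer i2 (Form.image Y Form.top)
      have : u.d (Form.rker i2 (Form.image Y Form.top)) = 0 := by
        rw [← u.bot (n := m')]
        refine u.congr ?_ (Form.bot_le _)
        intro M _ _ w hw
        have := (Form.mem_rker.1 hw).2
        rw [a2, sumElim_eq_zero] at this
        exact Form.mem_bot.2 this.2
      linarith
    have h3 := u.modular (Form.image i1 (Form.image X Form.top))
      (Form.image i2 (Form.image Y Form.top))
    have h4 : u.d ((Form.image i1 (Form.image X Form.top)).inf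
        (Form.image i2 (Form.image Y Form.top))) = 0 := by
      rw [← u.bot (n := m ⊕ m')]
      refine u.congr ?_ (Form.bot_le _)
      intro M _ _ w hw
      obtain ⟨hw1, hw2⟩ := Form.mem_inf.1 hw
      obtain ⟨x, _, hx⟩ := Form.mem_image.1 hw1
      obtain ⟨y, _, hy⟩ := Form.mem_image.1 hw2
      rw [a1] at hx
      rw [a2] at hy
      refine Form.mem_bot.2 ?_
      funext i
      rcases i with i | i
      · rw [hy]; rfl
      · rw [hx]; rfl
    have h5 : u.d (Form.image (Matrix.fromBlocks X 0 0 Y) Form.top) =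
        u.d ((Form.image i1 (Form.image X Form.top)).sup
        (Form.image i2 (Form.image Y Form.top))) := by
      apply u.congr
      · intro M _ _ w hw
        obtain ⟨v, hv, rfl⟩ := Form.mem_image.1 hw
        have e : v = Sum.elim (fun i => v (Sum.inl i)) (fun i => v (Sum.inr i)) := by
          funext i; rcases i with i | i <;> rfl
        refine Form.mem_sup.2 ⟨act i1 (act X fun i => v (Sum.inl i)), ?_,
          act i2 (act Y fun i => v (Sum.inr i)), ?_, ?_⟩
        · exact Form.mem_image.2 ⟨_, Form.mem_image.2 ⟨_, Form.mem_top, rfl⟩, rfl⟩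
        · exact Form.mem_image.2 ⟨_, Form.mem_image.2 ⟨_, Form.mem_top, rfl⟩, rfl⟩
        · rw [e, act_fromBlocks, a1, a2]
          funext i
          rcases i with i | i <;> simp
      · intro M _ _ w hw
        obtain ⟨x, hx, y, hy, rfl⟩ := Form.mem_sup.1 hw
        obtain ⟨x', hx', rfl⟩ := Form.mem_image.1 hx
        obtain ⟨x'', _, rfl⟩ := Form.mem_image.1 hx'
        obtain ⟨y', hy', rfl⟩ := Form.mem_image.1 hy
        obtain ⟨y'', _, rfl⟩ := Form.mem_image.1 hy'
        refine Form.mem_image.2 ⟨Sum.elim x'' y'', Form.mem_top, ?_⟩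
        rw [act_fromBlocks, a1, a2]
        funext i
        rcases i with i | i <;> simp
    rw [h5]
    linarith

lemma SDim.toPreRank_rk {R : Type} [Ring R] (u : SDim R) (hu : u.Mono) {m n : Type} [Fintype m]
    [Fintype n] (X : Matrix m n R) : (u.toPreRank hu).rk X = u.d (Form.image X Form.top) := rfl

/-- Riesz decomposition for Sylvester rank functions: the positive part of a difference. -/
theorem exists_pos_part {R : Type} [Ring R] (f g : SylRank R) :
    ∃ p q1 q2 : PreRank R,
      (∀ {m n : Type} [Fintype m] [Fintype n] (X : Matrix m n R), p.rk X + q1.rk X = f.rk X) ∧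
      (∀ {m n : Type} [Fintype m] [Fintype n] (X : Matrix m n R),
        q2.rk X + f.rk X = g.rk X + p.rk X) ∧
      (∀ k a b : SylRank R,
        (∀ {m n : Type} [Fintype m] [Fintype n] (X : Matrix m n R),
          a.rk X + f.rk X = k.rk X) →
        (∀ {m n : Type} [Fintype m] [Fintype n] (X : Matrix m n R),
          b.rk X + g.rk X = k.rk X) →
        ∃ c : PreRank R, ∀ {m n : Type} [Fintype m] [Fintype n] (X : Matrix m n R),
          c.rk X + g.rk X + p.rk X = k.rk X) ∧
      (∀ k a b : SylRank R,
        (∀ {m n : Type} [Fintype m] [Fintype n] (X : Matrix m n R),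
          a.rk X + k.rk X = f.rk X) →
        (∀ {m n : Type} [Fintype m] [Fintype n] (X : Matrix m n R),
          b.rk X + k.rk X = g.rk X) →
        ∃ c : PreRank R, ∀ {m n : Type} [Fintype m] [Fintype n] (X : Matrix m n R),
          c.rk X + k.rk X + p.rk X = f.rk X) := by
  -- dimension of a rank function in terms of the other ones
  have dimadd : ∀ a b k : SylRank R,
      (∀ {m n : Type} [Fintype m] [Fintype n] (X : Matrix m n R), a.rk X + b.rk X = k.rk X) →
      ∀ {n : Type} [Fintype n] (φ : Form R n), a.dim φ + b.dim φ = k.dim φ := by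
    intro a b k h n _ φ
    rw [SylRank.dim_def, SylRank.dim_def, SylRank.dim_def, ← h, ← h, ← h]
    ring
  let v : SDim R := f.sdim.sub g.sdim
  have hb : SDim.Dom v f.sdim := by
    intro n _ φ ψ h
    have h1 := f.dim_mono h
    have h2 := g.dim_mono h
    apply max_le
    · simp only [v, SDim.sub_d, SylRank.sdim_d]; linarith
    · simp only [SylRank.sdim_d]; linarith
  let P : SDim R := SDim.pos hb
  have hP : P.Mono := SDim.pos_mono hb
  have hQ1 : (f.sdim.sub P).Mono := SDim.sub_pos_mono hb hb
  have hQ2 : (P.sub v).Mono := SDim.pos_sub_mono hb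
  refine ⟨P.toPreRank hP, (f.sdim.sub P).toPreRank hQ1, (P.sub v).toPreRank hQ2, ?_, ?_, ?_, ?_⟩
  · intro m n _ _ X
    simp only [SDim.toPreRank_rk, SDim.sub_d, SylRank.sdim_d]
    rw [SylRank.dim_image_top]
    ring
  · intro m n _ _ X
    simp only [SDim.toPreRank_rk, SDim.sub_d, SylRank.sdim_d, v]
    rw [SylRank.dim_image_top, SylRank.dim_image_top]
    ring
  · intro k a b ha hb'
    have hw : SDim.Dom v (k.sdim.sub g.sdim) := by
      intro n _ φ ψ h
      have h1 := a.dim_mono h
      have h2 := b.dim_mono h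
      have e1 := dimadd a f k ha φ
      have e2 := dimadd a f k ha ψ
      have e3 := dimadd b g k hb' φ
      have e4 := dimadd b g k hb' ψ
      apply max_le
      · simp only [v, SDim.sub_d, SylRank.sdim_d]; linarith
      · simp only [SDim.sub_d, SylRank.sdim_d]; linarith
    have hc : ((k.sdim.sub g.sdim).sub P).Mono := SDim.sub_pos_mono hb hw
    refine ⟨SDim.toPreRank _ hc, ?_⟩
    intro m n _ _ X
    simp only [SDim.toPreRank_rk, SDim.sub_d, SylRank.sdim_d, P]
    rw [SylRank.dim_image_top, SylRank.dim_image_top]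
    ring
  · intro k a b ha hb'
    have hw : SDim.Dom v (f.sdim.sub k.sdim) := by
      intro n _ φ ψ h
      have h1 := a.dim_mono h
      have h2 := b.dim_mono h
      have e1 := dimadd a k f ha φ
      have e2 := dimadd a k f ha ψ
      have e3 := dimadd b k g hb' φ
      have e4 := dimadd b k g hb' ψ
      apply max_le
      · simp only [v, SDim.sub_d, SylRank.sdim_d]; linarith
      · simp only [SDim.sub_d, SylRank.sdim_d]; linarith
    have hc : ((f.sdim.sub k.sdim).sub P).Mono := SDim.sub_pos_mono hb hw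
    refine ⟨SDim.toPreRank _ hc, ?_⟩
    intro m n _ _ X
    simp only [SDim.toPreRank_rk, SDim.sub_d, SylRank.sdim_d, P]
    rw [SylRank.dim_image_top, SylRank.dim_image_top]
    ring

end Pool.Agent.Helper144_BH
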