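import Pool.Agent.Helper144_BH.Hered
import Pool.Agent.Helper144_BH.Var

/-!
# The cone of dimension functions of a unital C*-algebra is a lattice
-/

set_option autoImplicit false
open scoped Matrix

namespace Pool.Agent.Helper144_BH

/-- Sum of two preranks. -/
noncomputable def PreRank.plus {R : Type} [Ring R] (r s : PreRank R) : PreRank R where
  rk X := r.rk X + s.rk X
  nonneg X := add_nonneg (r.nonneg X) (s.nonneg X)
  mul_le_right Y X := add_le_add (r.mul_le_right Y X) (s.mul_le_right Y X)
  mul_le_left Y X := add_le_add (r.mul_le_left Y X) (s.mul_le_left Y X)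
  add X Y := by rw [r.add, s.add]; ring

section

variable {A : Type} [CStarAlgebra A]

/-- Dimension functions on the positive elements of `M_∞(A)` (not normalised). -/
def IsD (f : (n : ℕ) → Matrix (Fin n) (Fin n) A → ℝ) : Prop :=
  (∀ (n : ℕ) (a : Matrix (Fin n) (Fin n) A), Pos a → 0 ≤ f n a) ∧
  (∀ (n m : ℕ) (a : Matrix (Fin n) (Fin n) A) (b : Matrix (Fin m) (Fin m) A),
    Pos a → Pos b →
      f (n + m) (Matrix.reindex finSumFinEquiv finSumFinEquiv
        (Matrix.fromBlocks a 0 0 b)) = f n a + f m b) ∧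
  (∀ (n m : ℕ) (a : Matrix (Fin n) (Fin n) A) (b : Matrix (Fin m) (Fin m) A),
    Pos a → Pos b → Cz a b → f n a ≤ f m b)

/-- Extension of a dimension function to arbitrary finite index types. -/
noncomputable def ext (f : (n : ℕ) → Matrix (Fin n) (Fin n) A → ℝ) {n : Type} [Fintype n]
    (a : Matrix n n A) : ℝ :=
  f (Fintype.card n) (a.submatrix (Fintype.equivFin n).symm (Fintype.equivFin n).symm)

lemma IsD.ext_eq {f : (n : ℕ) → Matrix (Fin n) (Fin n) A → ℝ} (hf : IsD f) {n : Type} [Fintype n]
    {a : Matrix n n A} (ha : Pos a) {N : ℕ} (e : Fin N ≃ n) :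
    ext f a = f N (a.submatrix e e) := by
  apply le_antisymm
  · apply hf.2.2 _ _ _ _ (pos_submatrix ha _) (pos_submatrix ha _)
    exact (Cz_submatrix a _).trans (Cz_submatrix_equiv a e)
  · apply hf.2.2 _ _ _ _ (pos_submatrix ha _) (pos_submatrix ha _)
    exact (Cz_submatrix a _).trans (Cz_submatrix_equiv a _)

/-- A dimension function, as a function on matrices with arbitrary finite index types. -/
noncomputable def IsD.toDimF {f : (n : ℕ) → Matrix (Fin n) (Fin n) A → ℝ} (hf : IsD f) :
    DimF A where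
  d a := ext f a
  nonneg ha := hf.1 _ _ (pos_submatrix ha _)
  mono {m n} _ _ a b ha hb hab := by
    apply hf.2.2 _ _ _ _ (pos_submatrix ha _) (pos_submatrix hb _)
    exact ((Cz_submatrix a _).trans hab).trans (Cz_submatrix_equiv b _)
  add {m n} _ _ a b ha hb := by
    have h1 := hf.2.1 _ _ (a.submatrix (Fintype.equivFin m).symm (Fintype.equivFin m).symm)
      (b.submatrix (Fintype.equivFin n).symm (Fintype.equivFin n).symm)
      (pos_submatrix ha _) (pos_submatrix hb _)
    have h2 := hf.ext_eq (pos_fromBlocks ha hb)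
      (finSumFinEquiv.symm.trans (Equiv.sumCongr (Fintype.equivFin m).symm
        (Fintype.equivFin n).symm))
    rw [h2]
    unfold Pool.Agent.Helper144_BH.ext
    rw [← h1]
    congr 1
    rw [Matrix.reindex_apply]
    ext i j
    rw [Matrix.submatrix_apply, Matrix.submatrix_apply]
    simp only [Equiv.trans_apply]
    generalize finSumFinEquiv.symm i = i'
    generalize finSumFinEquiv.symm j = j'
    rcases i' with i' | i' <;> rcases j' with j' | j' <;> simp

lemma IsD.toDimF_d {f : (n : ℕ) → Matrix (Fin n) (Fin n) A → ℝ} (hf : IsD f) {n : ℕ}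
    {a : Matrix (Fin n) (Fin n) A} (ha : Pos a) : hf.toDimF.d a = f n a := by
  have := hf.ext_eq ha (Equiv.refl (Fin n))
  simp only [Equiv.coe_refl, Matrix.submatrix_id_id] at this
  exact this

lemma IsD.rank_eq {f : (n : ℕ) → Matrix (Fin n) (Fin n) A → ℝ} (hf : IsD f) {n : ℕ}
    {a : Matrix (Fin n) (Fin n) A} (ha : Pos a) : hf.toDimF.rank.rk a = f n a := by
  rw [hf.toDimF.rank_pos ha, hf.toDimF_d ha]

/-- Being a dimension function only depends on the values at positive matrices. -/
lemma IsD.congr {f g : (n : ℕ) → Matrix (Fin n) (Fin n) A → ℝ} (hf : IsD f)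
    (h : ∀ (n : ℕ) (a : Matrix (Fin n) (Fin n) A), Pos a → f n a = g n a) : IsD g := by
  refine ⟨fun n a ha => ?_, fun n m a b ha hb => ?_, fun n m a b ha hb hab => ?_⟩
  · rw [← h n a ha]; exact hf.1 n a ha
  · have hp : Pos (Matrix.reindex finSumFinEquiv finSumFinEquiv (Matrix.fromBlocks a 0 0 b)) := by
      rw [Matrix.reindex_apply]
      exact pos_submatrix (pos_fromBlocks ha hb) _
    rw [← h _ _ hp, ← h n a ha, ← h m b hb]
    exact hf.2.1 n m a b ha hb
  · rw [← h n a ha, ← h m b hb]
    exact hf.2.2 n m a b ha hb hab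

/-- A component of the rank function of a dimension function is a dimension function. -/
lemma IsComp.isD {δ : DimF A} {r1 r2 : PreRank A} (h : IsComp δ r1 r2) :
    IsD (fun _ a => r1.rk a : (n : ℕ) → Matrix (Fin n) (Fin n) A → ℝ) := by
  refine ⟨fun n a _ => r1.nonneg a, fun n m a b _ _ => ?_, fun n m a b ha hb hab => ?_⟩
  · show r1.rk (Matrix.reindex finSumFinEquiv finSumFinEquiv (Matrix.fromBlocks a 0 0 b)) =
      r1.rk a + r1.rk b
    rw [Matrix.reindex_apply, r1.submatrix_equiv, r1.add]
  · exact comp_mono h ha hb hab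

lemma IsD.add {f g : (n : ℕ) → Matrix (Fin n) (Fin n) A → ℝ} (hf : IsD f) (hg : IsD g) :
    IsD (fun n a => f n a + g n a) := by
  refine ⟨fun n a ha => add_nonneg (hf.1 n a ha) (hg.1 n a ha), fun n m a b ha hb => ?_,
    fun n m a b ha hb hab => add_le_add (hf.2.2 n m a b ha hb hab) (hg.2.2 n m a b ha hb hab)⟩
  have h1 := hf.2.1 n m a b ha hb
  have h2 := hg.2.1 n m a b ha hb
  simp only
  linarith

lemma rank_sub {k f : (n : ℕ) → Matrix (Fin n) (Fin n) A → ℝ} (hk : IsD k) (hf : IsD f)
    (hkf : IsD (k - f)) {m n : Type} [Fintype m] [Fintype n] (X : Matrix m n A) :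
    hkf.toDimF.rank.rk X + hf.toDimF.rank.rk X = hk.toDimF.rank.rk X := by
  change ext (k - f) (Xᴴ * X) + ext f (Xᴴ * X) = ext k (Xᴴ * X)
  simp only [ext, Pi.sub_apply]
  ring

/-- The cone of dimension functions is a lattice in its own order. -/
theorem lattice {f g : (n : ℕ) → Matrix (Fin n) (Fin n) A → ℝ} (hf : IsD f) (hg : IsD g) :
    (∃ s : (n : ℕ) → Matrix (Fin n) (Fin n) A → ℝ,
        IsD s ∧ IsD (s - f) ∧ IsD (s - g) ∧
        ∀ k : (n : ℕ) → Matrix (Fin n) (Fin n) A → ℝ,
          IsD k → IsD (k - f) → IsD (k - g) → IsD (k - s)) ∧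
    (∃ i : (n : ℕ) → Matrix (Fin n) (Fin n) A → ℝ,
        IsD i ∧ IsD (f - i) ∧ IsD (g - i) ∧
        ∀ k : (n : ℕ) → Matrix (Fin n) (Fin n) A → ℝ,
          IsD k → IsD (f - k) → IsD (g - k) → IsD (i - k)) := by
  obtain ⟨p, q1, q2, h1, h2, h3, h4⟩ := exists_pos_part hf.toDimF.rank hg.toDimF.rank
  have cp : IsComp hf.toDimF p q1 := fun X => h1 X
  have cq1 : IsComp hf.toDimF q1 p := fun X => by rw [add_comm]; exact h1 X
  have cq2 : IsComp hg.toDimF q2 q1 := fun X => by
    have e1 := h1 X
    have e2 := h2 X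
    linarith
  have dp := cp.isD
  have dq1 := cq1.isD
  have dq2 := cq2.isD
  constructor
  · refine ⟨fun n a => g n a + p.rk a, hg.add dp, ?_, ?_, ?_⟩
    · apply dq2.congr
      intro n a ha
      have e1 := h1 a
      have e2 := h2 a
      rw [hf.rank_eq ha] at e1 e2
      rw [hg.rank_eq ha] at e2
      simp only [Pi.sub_apply]
      linarith
    · apply dp.congr
      intro n a ha
      simp only [Pi.sub_apply]
      ring
    · intro k hk hkf hkg
      obtain ⟨c, hc⟩ := h3 hk.toDimF.rank hkf.toDimF.rank hkg.toDimF.rank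
        (fun X => rank_sub hk hf hkf X) (fun X => rank_sub hk hg hkg X)
      have cc : IsComp hk.toDimF c (hg.toDimF.rank.toPreRank.plus p) := fun X => by
        have := hc X
        simp only [PreRank.plus]
        linarith
      apply cc.isD.congr
      intro n a ha
      have e := hc a
      rw [hg.rank_eq ha, hk.rank_eq ha] at e
      simp only [Pi.sub_apply]
      linarith
  · refine ⟨fun n a => q1.rk a, dq1, ?_, ?_, ?_⟩
    · apply dp.congr
      intro n a ha
      have e1 := h1 a
      rw [hf.rank_eq ha] at e1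
      simp only [Pi.sub_apply]
      linarith
    · apply dq2.congr
      intro n a ha
      have e1 := h1 a
      have e2 := h2 a
      rw [hf.rank_eq ha] at e1 e2
      rw [hg.rank_eq ha] at e2
      simp only [Pi.sub_apply]
      linarith
    · intro k hk hfk hgk
      obtain ⟨c, hc⟩ := h4 hk.toDimF.rank hfk.toDimF.rank hgk.toDimF.rank
        (fun X => rank_sub hf hk hfk X) (fun X => rank_sub hg hk hgk X)
      have cc : IsComp hf.toDimF c (hk.toDimF.rank.toPreRank.plus p) := fun X => by
        have := hc X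
        simp only [PreRank.plus]
        linarith
      apply cc.isD.congr
      intro n a ha
      have e := hc a
      have e1 := h1 a
      rw [hk.rank_eq ha] at e
      simp only [Pi.sub_apply]
      linarith

/-- Cuntz subequivalence in terms of sequences. -/
lemma cz_iff_seq {n m : ℕ} {a : Matrix (Fin n) (Fin n) A} {b : Matrix (Fin m) (Fin m) A} :
    Cz a b ↔ ∃ x : ℕ → Matrix (Fin n) (Fin m) A,
      Filter.Tendsto (fun k => x k * b * (x k)ᴴ) Filter.atTop (nhds a) := by
  have : FrechetUrysohnSpace (Matrix (Fin n) (Fin n) A) :=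
    inferInstanceAs (FrechetUrysohnSpace (Fin n → Fin n → A))
  unfold Cz
  rw [mem_closure_iff_seq_limit]
  constructor
  · rintro ⟨y, hy, hlim⟩
    choose x hx using hy
    refine ⟨x, ?_⟩
    simp only at hx
    simpa only [hx] using hlim
  · rintro ⟨x, hx⟩
    exact ⟨fun k => x k * b * (x k)ᴴ, fun k => ⟨x k, rfl⟩, hx⟩

end

end Pool.Agent.Helper144_BH
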