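import Mathlib

/-!
# The exchange tower (the m-fold Hilbert hotel): algebraic part
-/

set_option autoImplicit false

namespace Pool.Agent.Helper144_BH

section tower

variable {B : Type*} [Ring B] [StarRing B]

/-- Inner product of the first `m + 1` coordinates. -/
def inn (m : ℕ) (e e' : ℕ → B) : B := ∑ i ∈ Finset.range (m + 1), star (e i) * e' i

/-- The sequence `y 0 = e 0`, `y (i+1) = η y i + e (i+1)`. -/
def run (η : B) (e : ℕ → B) : ℕ → B
  | 0 => e 0
  | i + 1 => η * run η e i + e (i + 1)

/-- One step of the tower: `m` successive exchanges. -/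
def step (m : ℕ) (η q : B) (e : ℕ → B) : ℕ → B
  | 0 => run η e m
  | i + 1 => q * run η e i

/-- Admissibility: the coordinates of positive index are orthogonal to `η`. -/
def Adm (η : B) (e : ℕ → B) : Prop := ∀ i, star η * e (i + 1) = 0

lemma inn_step (m : ℕ) {η q : B} (hq : star q * q + star η * η = 1) {e e' : ℕ → B}
    (he : Adm η e) (he' : Adm η e') : inn m (step m η q e) (step m η q e') = inn m e e' := by
  have key : ∀ m : ℕ, star (run η e m) * run η e' m +
      ∑ i ∈ Finset.range m, star (q * run η e i) * (q * run η e' i) = inn m e e' := by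
    intro m
    induction m with
    | zero => simp [inn, run]
    | succ m ih =>
      have h1 : inn (m + 1) e e' = inn m e e' + star (e (m + 1)) * e' (m + 1) := by
        simp only [inn]
        rw [Finset.sum_range_succ _ (m + 1)]
      have h2 : star (run η e (m + 1)) * run η e' (m + 1) =
          star (run η e m) * (star η * η) * run η e' m + star (e (m + 1)) * e' (m + 1) := by
        have c1 : star (run η e m) * star η * e' (m + 1) = 0 := by
          rw [mul_assoc, he' m, mul_zero]
        have c2 : star (e (m + 1)) * (η * run η e' m) = 0 := by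
          have := congrArg star (he m)
          rw [star_mul, star_star, star_zero] at this
          rw [← mul_assoc, this, zero_mul]
        simp only [run]
        rw [star_add, star_mul, add_mul, mul_add, mul_add, c1, c2]
        noncomm_ring
      have h3 : star (q * run η e m) * (q * run η e' m) =
          star (run η e m) * run η e' m - star (run η e m) * (star η * η) * run η e' m := by
        have : star q * q = 1 - star η * η := by rw [← hq]; abel
        rw [star_mul]
        calc star (run η e m) * star q * (q * run η e' m) =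
            star (run η e m) * (star q * q) * run η e' m := by noncomm_ring
          _ = _ := by rw [this]; noncomm_ring
      rw [Finset.sum_range_succ, h1, ← ih, h2, h3]
      abel
  rw [← key m]
  simp only [inn]
  rw [Finset.sum_range_succ', add_comm]
  rfl

/-- Composition of the steps `0, ..., k-1` (step `k-1` applied first). -/
def tow (m : ℕ) (η q : ℕ → B) : ℕ → (ℕ → B) → (ℕ → B)
  | 0, e => e
  | k + 1, e => tow m η q k (step m (η k) (q k) e)

/-- Admissibility at stage `k`. -/
def AdmAt (η : ℕ → B) (k : ℕ) (e : ℕ → B) : Prop := ∀ j, k = j + 1 → Adm (η j) e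

lemma admAt_step (m : ℕ) {η q : ℕ → B} (hqη : ∀ k, star (η k) * q (k + 1) = 0) (k : ℕ)
    (e : ℕ → B) : AdmAt η k (step m (η k) (q k) e) := by
  rintro j rfl i
  simp only [step]
  rw [← mul_assoc, hqη, zero_mul]

lemma inn_tow (m : ℕ) {η q : ℕ → B} (hqη : ∀ k, star (η k) * q (k + 1) = 0)
    (hq : ∀ k, star (q k) * q k + star (η k) * η k = 1) (k : ℕ) :
    ∀ e e' : ℕ → B, AdmAt η k e → AdmAt η k e' →
      inn m (tow m η q k e) (tow m η q k e') = inn m e e' := by
  induction k with
  | zero => intro e e' _ _; rfl
  | succ k ih =>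
    intro e e' he he'
    simp only [tow]
    rw [ih _ _ (admAt_step m hqη k e) (admAt_step m hqη k e')]
    exact inn_step m (hq k) (he k rfl) (he' k rfl)

lemma tow_split (m : ℕ) {η q : ℕ → B} (hqη : ∀ k, star (η k) * q (k + 1) = 0) (k : ℕ) (j : ℕ) :
    ∀ e : ℕ → B, AdmAt η (k + 1 + j) e →
      ∃ e', AdmAt η (k + 1) e' ∧ tow m η q (k + 1 + j) e = tow m η q (k + 1) e' := by
  induction j with
  | zero => intro e he; exact ⟨e, he, rfl⟩
  | succ j ih =>
    intro e he
    obtain ⟨e', h1, h2⟩ := ih _ (admAt_step m hqη (k + 1 + j) e)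
    exact ⟨e', h1, h2⟩

/-- The vector with one nonzero coordinate, of index `c + 1`. -/
def sgl (c : ℕ) (w : B) : ℕ → B := fun i => if i = c + 1 then w else 0

lemma admAt_sgl {η w : ℕ → B} (hw : ∀ k, star (η k) * w (k + 1) = 0) (k c : ℕ) :
    AdmAt η k (sgl c (w k)) := by
  rintro j rfl i
  simp only [sgl]
  split_ifs
  · exact hw j
  · exact mul_zero _

lemma inn_sgl_left {m c : ℕ} (hc : c < m) (w : B) (e : ℕ → B) :
    inn m (sgl c w) e = star w * e (c + 1) := by
  simp only [inn]
  rw [Finset.sum_eq_single (c + 1)]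
  · simp [sgl]
  · intro b _ hb
    simp [sgl, hb]
  · intro h
    exact absurd (Finset.mem_range.2 (by omega)) h

lemma inn_star (m : ℕ) (e e' : ℕ → B) : star (inn m e e') = inn m e' e := by
  simp only [inn, star_sum, star_mul, star_star]

lemma inn_tow_sgl (m : ℕ) {η q w : ℕ → B} (hqη : ∀ k, star (η k) * q (k + 1) = 0)
    (hq : ∀ k, star (q k) * q k + star (η k) * η k = 1)
    (hηw : ∀ k, star (η k) * w (k + 1) = 0) (hqw : ∀ k, star (w k) * q k = 0)
    {k l c c' : ℕ} (hc : c < m) (hc' : c' < m) :
    inn m (tow m η q k (sgl c (w k))) (tow m η q l (sgl c' (w l))) =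
      if k = l then (if c = c' then star (w k) * w k else 0) else 0 := by
  have hlt : ∀ {k l c c' : ℕ}, c < m → c' < m → k < l →
      inn m (tow m η q k (sgl c (w k))) (tow m η q l (sgl c' (w l))) = 0 := by
    intro k l c c' hc hc' hkl
    obtain ⟨j, rfl⟩ := Nat.exists_eq_add_of_lt hkl
    have e : k + j + 1 = k + 1 + j := by omega
    rw [e]
    obtain ⟨e', h1, h2⟩ := tow_split m hqη k j (sgl c' (w (k + 1 + j)))
      (admAt_sgl hηw _ _)
    rw [h2]
    simp only [tow]
    rw [inn_tow m hqη hq k _ _ (admAt_sgl hηw _ _) (admAt_step m hqη k e'),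
      inn_sgl_left hc]
    simp only [step]
    rw [← mul_assoc, hqw, zero_mul]
  rcases lt_trichotomy k l with h | h | h
  · rw [if_neg h.ne, hlt hc hc' h]
  · subst h
    rw [if_pos rfl, inn_tow m hqη hq k _ _ (admAt_sgl hηw _ _) (admAt_sgl hηw _ _),
      inn_sgl_left hc]
    simp only [sgl]
    by_cases h : c = c'
    · simp [h]
    · have : ¬ (c + 1 = c' + 1) := by omega
      simp [h]
  · rw [if_neg h.ne', ← star_eq_zero, inn_star, hlt hc' hc h]

omit [StarRing B] in
/-- The entries of the vectors stay in a right ideal. -/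
lemma tow_mem (m : ℕ) {η q : ℕ → B} (J : AddSubgroup B) (hη : ∀ k x, η k * x ∈ J)
    (hqJ : ∀ k, ∀ x ∈ J, q k * x ∈ J) (k : ℕ) :
    ∀ e : ℕ → B, (∀ i, e i ∈ J) → ∀ i, tow m η q k e i ∈ J := by
  induction k with
  | zero => intro e he; exact he
  | succ k ih =>
    intro e he
    simp only [tow]
    apply ih
    have hrun : ∀ i, run (η k) e i ∈ J := by
      intro i
      induction i with
      | zero => exact he 0
      | succ i _ => exact J.add_mem (hη _ _) (he _)
    intro i
    cases i with
    | zero => exact hrun m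
    | succ i => exact hqJ k _ (hrun i)

end tower

section analytic

variable {B : Type*} [CStarAlgebra B] [PartialOrder B] [StarOrderedRing B]

/-- The tower, summed over all stages. -/
theorem exists_hotel (m : ℕ) {η q w : ℕ → B} (hqη : ∀ k, star (η k) * q (k + 1) = 0)
    (hq : ∀ k, star (q k) * q k + star (η k) * η k = 1)
    (hηw : ∀ k, star (η k) * w (k + 1) = 0) (hqw : ∀ k, star (w k) * q k = 0)
    (J : AddSubgroup B) (hJ : IsClosed (J : Set B)) (hη : ∀ k x, η k * x ∈ J)
    (hqJ : ∀ k, ∀ x ∈ J, q k * x ∈ J) (hwJ : ∀ k, w k ∈ J)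
    (bd : ℕ → ℝ) (hbd : Summable bd) (hw : ∀ k, ‖w k‖ ≤ bd k) :
    ∃ ζ : ℕ → ℕ → B, (∀ c i, i ≤ m → c < m → ζ c i ∈ J) ∧
      ∀ c c', c < m → c' < m →
        Filter.Tendsto (fun N => if c = c' then ∑ k ∈ Finset.range N, star (w k) * w k else 0)
          Filter.atTop (nhds (inn m (ζ c) (ζ c'))) := by
  let z : ℕ → ℕ → ℕ → B := fun k c i => tow m η q k (sgl c (w k)) i
  have hinn : ∀ {k l c c' : ℕ}, c < m → c' < m → inn m (z k c) (z l c') =
      if k = l then (if c = c' then star (w k) * w k else 0) else 0 :=
    fun hc hc' => inn_tow_sgl m hqη hq hηw hqw hc hc'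
  have hzJ : ∀ k c i, z k c i ∈ J := by
    intro k c i
    apply tow_mem m J hη hqJ k
    intro i
    simp only [sgl]
    split_ifs
    · exact hwJ k
    · exact J.zero_mem
  have hnorm : ∀ k c i, c < m → i ≤ m → ‖z k c i‖ ≤ bd k := by
    intro k c i hc hi
    have h1 : star (z k c i) * z k c i ≤ inn m (z k c) (z k c) := by
      simp only [inn]
      exact Finset.single_le_sum (f := fun i => star (z k c i) * z k c i)
        (fun j _ => star_mul_self_nonneg _) (Finset.mem_range.2 (by omega))
    rw [hinn hc hc, if_pos rfl, if_pos rfl] at h1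
    have h2 := CStarAlgebra.norm_le_norm_of_nonneg_of_le (star_mul_self_nonneg (z k c i)) h1
    rw [CStarRing.norm_star_mul_self, CStarRing.norm_star_mul_self] at h2
    have h3 : ‖z k c i‖ ≤ ‖w k‖ := by
      by_contra h
      rw [not_le] at h
      nlinarith [norm_nonneg (w k), norm_nonneg (z k c i)]
    exact h3.trans (hw k)
  have hsum : ∀ c i, c < m → i ≤ m → Summable fun k => z k c i := fun c i hc hi =>
    Summable.of_norm_bounded hbd fun k => hnorm k c i hc hi
  refine ⟨fun c i => ∑' k, z k c i, ?_, ?_⟩
  · intro c i hi hc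
    refine hJ.mem_of_tendsto (hsum c i hc hi).hasSum (Filter.Eventually.of_forall fun s => ?_)
    exact J.sum_mem fun k _ => hzJ k c i
  · intro c c' hc hc'
    -- inner products of partial sums
    let S : ℕ → ℕ → ℕ → B := fun N c i => ∑ k ∈ Finset.range N, z k c i
    have hS : ∀ c i, c < m → i ≤ m →
        Filter.Tendsto (fun N => S N c i) Filter.atTop (nhds (∑' k, z k c i)) :=
      fun c i hc hi => (hsum c i hc hi).hasSum.tendsto_sum_nat
    have h1 : Filter.Tendsto (fun N => inn m (S N c) (S N c')) Filter.atTop
        (nhds (inn m (fun i => ∑' k, z k c i) (fun i => ∑' k, z k c' i))) := by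
      simp only [inn]
      apply tendsto_finsetSum
      intro i hi
      have hi' : i ≤ m := by have := Finset.mem_range.1 hi; omega
      exact ((hS c i hc hi').star).mul (hS c' i hc' hi')
    have h2 : ∀ N, inn m (S N c) (S N c') =
        if c = c' then ∑ k ∈ Finset.range N, star (w k) * w k else 0 := by
      intro N
      have e1 : inn m (S N c) (S N c') =
          ∑ k ∈ Finset.range N, ∑ l ∈ Finset.range N, inn m (z k c) (z l c') := by
        simp only [inn, S, star_sum, Finset.sum_mul_sum]
        rw [Finset.sum_comm]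
        refine Finset.sum_congr rfl fun k _ => ?_
        rw [Finset.sum_comm]
      rw [e1]
      have e2 : ∀ k ∈ Finset.range N, ∑ l ∈ Finset.range N, inn m (z k c) (z l c') =
          if c = c' then star (w k) * w k else 0 := by
        intro k hk
        rw [Finset.sum_eq_single k]
        · rw [hinn hc hc', if_pos rfl]
        · intro l _ hl
          rw [hinn hc hc', if_neg (Ne.symm hl)]
        · intro h; exact absurd hk h
      rw [Finset.sum_congr rfl e2]
      by_cases h : c = c' <;> simp [h]
    simpa only [h2] using h1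

end analytic

end Pool.Agent.Helper144_BH
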