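import Mathlib

/-!
# The cut-off functions used in the exchange tower
-/

set_option autoImplicit false

namespace Pool.Agent.Helper144_BH

/-- The left end point of the `k`-th cell of the family `r` modulo `M`. -/
noncomputable def uu (M r k : ℕ) : ℝ := (1 / 2) ^ (k * M + r + 1)

noncomputable def al (M r k : ℕ) : ℝ := 5 / 4 * uu M r k

noncomputable def be (M r k : ℕ) : ℝ := 3 / 2 * uu M r k

lemma uu_pos (M r k : ℕ) : 0 < uu M r k := by unfold uu; positivity

lemma al_pos (M r k : ℕ) : 0 < al M r k := by have := uu_pos M r k; unfold al; positivity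

lemma be_pos (M r k : ℕ) : 0 < be M r k := by have := uu_pos M r k; unfold be; positivity

lemma al_lt_be (M r k : ℕ) : al M r k < be M r k := by
  have := uu_pos M r k; unfold al be; linarith

lemma uu_succ {M : ℕ} (hM : 0 < M) (r k : ℕ) : 2 * uu M r (k + 1) ≤ uu M r k := by
  unfold uu
  have h : (1 / 2 : ℝ) ^ ((k + 1) * M + r + 1) ≤ (1 / 2 : ℝ) ^ (k * M + r + 1 + 1) := by
    apply pow_le_pow_of_le_one (by norm_num) (by norm_num)
    nlinarith
  calc 2 * (1 / 2 : ℝ) ^ ((k + 1) * M + r + 1) ≤ 2 * (1 / 2 : ℝ) ^ (k * M + r + 1 + 1) := by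
        gcongr
    _ = (1 / 2 : ℝ) ^ (k * M + r + 1) := by rw [pow_succ]; ring

lemma be_lt_al {M : ℕ} (hM : 0 < M) (r k : ℕ) : be M r (k + 1) < al M r k := by
  have h1 := uu_succ hM r k
  have h2 := uu_pos M r (k + 1)
  unfold be al
  linarith

lemma uu_le {M : ℕ} (hM : 0 < M) (r k : ℕ) : uu M r k ≤ (1 / 2) ^ k := by
  unfold uu
  apply pow_le_pow_of_le_one (by norm_num) (by norm_num)
  nlinarith

/-- The ramp function from `al` to `be`. -/
noncomputable def kap (M r k : ℕ) (t : ℝ) : ℝ :=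
  max 0 (min 1 ((t - al M r k) / (be M r k - al M r k)))

noncomputable def Rf (M r k : ℕ) (t : ℝ) : ℝ := √(kap M r k t)

noncomputable def Df (M r k : ℕ) (t : ℝ) : ℝ := 1 - √(1 - kap M r k t)

noncomputable def Xf (M r k : ℕ) (t : ℝ) : ℝ := max 0 (min 1 (2 * t / al M r k - 1))

/-- The window functions. -/
noncomputable def Wf (M r : ℕ) : ℕ → ℝ → ℝ
  | 0, t => max (t - be M r 0) 0
  | k + 1, t => max (t - be M r (k + 1)) 0 * max (al M r k - t) 0

/-- The gap functions. -/
noncomputable def bump (j : ℕ) (t : ℝ) : ℝ :=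
  max (t - (1 / 2) ^ (j + 1)) 0 * max (2 * (1 / 2) ^ (j + 1) - t) 0

noncomputable def Gf (M r : ℕ) (t : ℝ) : ℝ := ∑' k, bump (k * M + r) t

noncomputable def Ff (M r : ℕ) (t : ℝ) : ℝ := ∑' k, Wf M r k t * Wf M r k t

lemma kap_nonneg (M r k : ℕ) (t : ℝ) : 0 ≤ kap M r k t := le_max_left _ _

lemma kap_le_one (M r k : ℕ) (t : ℝ) : kap M r k t ≤ 1 :=
  max_le zero_le_one (min_le_left _ _)

lemma kap_eq_zero {M r k : ℕ} {t : ℝ} (h : t ≤ al M r k) : kap M r k t = 0 := by
  unfold kap
  apply max_eq_left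
  refine (min_le_right _ _).trans ?_
  apply div_nonpos_of_nonpos_of_nonneg (by linarith)
  have := al_lt_be M r k
  linarith

lemma kap_eq_one {M r k : ℕ} {t : ℝ} (h : be M r k ≤ t) : kap M r k t = 1 := by
  unfold kap
  have h1 := al_lt_be M r k
  have h2 : 1 ≤ (t - al M r k) / (be M r k - al M r k) := by
    rw [one_le_div (by linarith)]
    linarith
  rw [min_eq_left h2]
  exact max_eq_right zero_le_one

lemma Xf_eq_one {M r k : ℕ} {t : ℝ} (h : al M r k ≤ t) : Xf M r k t = 1 := by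
  unfold Xf
  have h1 := al_pos M r k
  have h2 : 1 ≤ 2 * t / al M r k - 1 := by
    have : 2 ≤ 2 * t / al M r k := by
      rw [le_div_iff₀ h1]
      linarith
    linarith
  rw [min_eq_left h2]
  exact max_eq_right zero_le_one

lemma Xf_eq_zero {M r k : ℕ} {t : ℝ} (h : t ≤ al M r k / 2) : Xf M r k t = 0 := by
  unfold Xf
  have h1 := al_pos M r k
  apply max_eq_left
  refine (min_le_right _ _).trans ?_
  have : 2 * t / al M r k ≤ 1 := by
    rw [div_le_iff₀ h1]
    linarith
  linarith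

lemma Xf_nonneg (M r k : ℕ) (t : ℝ) : 0 ≤ Xf M r k t := le_max_left _ _

lemma Df_eq_zero {M r k : ℕ} {t : ℝ} (h : t ≤ al M r k) : Df M r k t = 0 := by
  simp [Df, kap_eq_zero h]

lemma Df_eq_one {M r k : ℕ} {t : ℝ} (h : be M r k ≤ t) : Df M r k t = 1 := by
  simp [Df, kap_eq_one h]

lemma Rf_eq_zero {M r k : ℕ} {t : ℝ} (h : t ≤ al M r k) : Rf M r k t = 0 := by
  simp [Rf, kap_eq_zero h]

lemma Wf_eq_zero {M r k : ℕ} {t : ℝ} (h : t ≤ be M r k) : Wf M r k t = 0 := by
  cases k with
  | zero => simp only [Wf]; exact max_eq_right (by linarith)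
  | succ k => simp only [Wf]; rw [max_eq_right (by linarith), zero_mul]

lemma Wf_succ_eq_zero {M r k : ℕ} {t : ℝ} (h : al M r k ≤ t) : Wf M r (k + 1) t = 0 := by
  simp only [Wf]; rw [max_eq_right (a := al M r k - t) (by linarith), mul_zero]

lemma Wf_nonneg (M r k : ℕ) (t : ℝ) : 0 ≤ Wf M r k t := by
  cases k with
  | zero => exact le_max_right _ _
  | succ k => exact mul_nonneg (le_max_right _ _) (le_max_right _ _)

-- function identities

lemma XD (M r k : ℕ) (t : ℝ) : Xf M r k t * Xf M r k t * Df M r k t = Df M r k t := by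
  rcases le_total t (al M r k) with h | h
  · rw [Df_eq_zero h, mul_zero]
  · rw [Xf_eq_one h]; ring

lemma XR {M : ℕ} (hM : 0 < M) (r k : ℕ) (t : ℝ) :
    Xf M r (k + 1) t * Xf M r (k + 1) t * Rf M r k t = Rf M r k t := by
  rcases le_total t (al M r k) with h | h
  · rw [Rf_eq_zero h, mul_zero]
  · have h1 := be_lt_al hM r k
    have h2 := al_lt_be M r (k + 1)
    rw [Xf_eq_one (by linarith)]; ring

lemma XW (M r k : ℕ) (t : ℝ) : Xf M r k t * Xf M r k t * Wf M r k t = Wf M r k t := by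
  rcases le_total t (be M r k) with h | h
  · rw [Wf_eq_zero h, mul_zero]
  · have h2 := al_lt_be M r k
    rw [Xf_eq_one (by linarith)]; ring

lemma DR (M r k : ℕ) (t : ℝ) :
    Df M r k t * Df M r k t + Rf M r k t * Rf M r k t = 2 * Df M r k t := by
  have h1 : √(1 - kap M r k t) * √(1 - kap M r k t) = 1 - kap M r k t :=
    Real.mul_self_sqrt (by have := kap_le_one M r k t; linarith)
  have h2 : √(kap M r k t) * √(kap M r k t) = kap M r k t :=
    Real.mul_self_sqrt (kap_nonneg M r k t)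
  unfold Df Rf
  nlinarith

lemma RD {M : ℕ} (hM : 0 < M) (r k : ℕ) (t : ℝ) :
    Rf M r k t * Df M r (k + 1) t = Rf M r k t := by
  rcases le_total t (al M r k) with h | h
  · rw [Rf_eq_zero h, zero_mul]
  · have h1 := be_lt_al hM r k
    rw [Df_eq_one (by linarith), mul_one]

lemma WD (M r k : ℕ) (t : ℝ) : Wf M r k t * Df M r k t = Wf M r k t := by
  rcases le_total t (be M r k) with h | h
  · rw [Wf_eq_zero h, zero_mul]
  · rw [Df_eq_one h, mul_one]

lemma RW' (M r k : ℕ) (t : ℝ) : Rf M r k t * Wf M r (k + 1) t = 0 := by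
  rcases le_total t (al M r k) with h | h
  · rw [Rf_eq_zero h, zero_mul]
  · rw [Wf_succ_eq_zero h, mul_zero]

lemma X_lower (M r k : ℕ) (t : ℝ) :
    al M r k / 4 * (Xf M r k t * Xf M r k t) ≤
      Xf M r k t * (t - al M r k / 4) * Xf M r k t := by
  rcases le_total t (al M r k / 2) with h | h
  · rw [Xf_eq_zero h]; simp
  · have h1 := mul_self_nonneg (Xf M r k t)
    nlinarith

-- continuity

lemma continuous_kap (M r k : ℕ) : Continuous (kap M r k) := by
  unfold kap
  fun_prop

lemma continuous_Rf (M r k : ℕ) : Continuous (Rf M r k) := by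
  unfold Rf
  exact (continuous_kap M r k).sqrt

lemma continuous_Df (M r k : ℕ) : Continuous (Df M r k) := by
  unfold Df
  exact continuous_const.sub (continuous_const.sub (continuous_kap M r k)).sqrt

lemma continuous_Xf (M r k : ℕ) : Continuous (Xf M r k) := by
  unfold Xf
  fun_prop

lemma continuous_Wf (M r k : ℕ) : Continuous (Wf M r k) := by
  cases k with
  | zero => unfold Wf; fun_prop
  | succ k => unfold Wf; fun_prop

lemma continuous_bump (j : ℕ) : Continuous (bump j) := by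
  unfold bump
  fun_prop

-- bounds

lemma Wf_succ_le {M : ℕ} (hM : 0 < M) (r k : ℕ) (t : ℝ) :
    Wf M r (k + 1) t ≤ 2 * (1 / 2) ^ k := by
  simp only [Wf]
  have hb := be_pos M r (k + 1)
  have ha := al_pos M r k
  have hu := uu_le hM r k
  have hu1 : uu M r k ≤ 1 := hu.trans (pow_le_one₀ (by norm_num) (by norm_num))
  have hal : al M r k ≤ 5 / 4 * (1 / 2) ^ k := by unfold al; linarith
  have hal1 : al M r k ≤ 5 / 4 := by unfold al; linarith
  have hp : (0 : ℝ) < (1 / 2) ^ k := by positivity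
  rcases le_total t 0 with h0 | h0
  · rw [max_eq_right (by linarith), zero_mul]; positivity
  · rcases le_total (al M r k) t with h1 | h1
    · rw [max_eq_right (a := al M r k - t) (by linarith), mul_zero]; positivity
    · have e1 : max (t - be M r (k + 1)) 0 ≤ al M r k := max_le (by linarith) ha.le
      have e2 : max (al M r k - t) 0 ≤ al M r k := max_le (by linarith) ha.le
      calc max (t - be M r (k + 1)) 0 * max (al M r k - t) 0 ≤ al M r k * al M r k := by
            gcongr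
        _ ≤ (5 / 4 * (1 / 2) ^ k) * (5 / 4) := by gcongr
        _ ≤ 2 * (1 / 2) ^ k := by nlinarith

lemma bump_nonneg (j : ℕ) (t : ℝ) : 0 ≤ bump j t :=
  mul_nonneg (le_max_right _ _) (le_max_right _ _)

lemma bump_le (j : ℕ) (t : ℝ) : bump j t ≤ (1 / 2) ^ j := by
  unfold bump
  set v : ℝ := (1 / 2) ^ (j + 1) with hv
  have hv0 : 0 < v := by positivity
  have hv2 : 2 * v = (1 / 2) ^ j := by rw [hv, pow_succ]; ring
  have hv1 : v ≤ 1 := pow_le_one₀ (by norm_num) (by norm_num)
  rcases le_total t v with h | h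
  · rw [max_eq_right (by linarith), zero_mul]; positivity
  · rcases le_total (2 * v) t with h' | h'
    · rw [max_eq_right (a := 2 * v - t) (by linarith), mul_zero]; positivity
    · rw [max_eq_left (by linarith), max_eq_left (by linarith), ← hv2]
      nlinarith

lemma bump_pos {j : ℕ} {t : ℝ} (h1 : (1 / 2) ^ (j + 1) < t) (h2 : t < (1 / 2) ^ j) :
    0 < bump j t := by
  unfold bump
  have : 2 * (1 / 2 : ℝ) ^ (j + 1) = (1 / 2) ^ j := by rw [pow_succ]; ring
  apply mul_pos
  · exact lt_max_of_lt_left (by linarith)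
  · exact lt_max_of_lt_left (by linarith)

lemma bump_ne_zero {j : ℕ} {t : ℝ} (h : bump j t ≠ 0) :
    (1 / 2) ^ (j + 1) < t ∧ t < (1 / 2) ^ j := by
  have e : 2 * (1 / 2 : ℝ) ^ (j + 1) = (1 / 2) ^ j := by rw [pow_succ]; ring
  unfold bump at h
  constructor
  · by_contra h'
    rw [not_lt] at h'
    apply h
    rw [max_eq_right (by linarith), zero_mul]
  · by_contra h'
    rw [not_lt] at h'
    apply h
    rw [max_eq_right (a := 2 * (1 / 2 : ℝ) ^ (j + 1) - t) (by linarith), mul_zero]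

lemma bump_mul {i j : ℕ} (h : i ≠ j) (t : ℝ) : bump i t * bump j t = 0 := by
  by_contra hne
  rcases mul_ne_zero_iff.1 hne with ⟨h1, h2⟩
  obtain ⟨a1, a2⟩ := bump_ne_zero h1
  obtain ⟨b1, b2⟩ := bump_ne_zero h2
  rcases lt_or_gt_of_ne h with h | h
  · have : (1 / 2 : ℝ) ^ j ≤ (1 / 2) ^ (i + 1) :=
      pow_le_pow_of_le_one (by norm_num) (by norm_num) h
    linarith
  · have : (1 / 2 : ℝ) ^ i ≤ (1 / 2) ^ (j + 1) :=
      pow_le_pow_of_le_one (by norm_num) (by norm_num) h
    linarith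

lemma summable_geo : Summable fun k : ℕ => (1 / 2 : ℝ) ^ k :=
  summable_geometric_of_lt_one (by norm_num) (by norm_num)

lemma bump_le' {M : ℕ} (hM : 0 < M) (r k : ℕ) (t : ℝ) :
    ‖bump (k * M + r) t‖ ≤ (1 / 2) ^ k := by
  rw [Real.norm_of_nonneg (bump_nonneg _ _)]
  refine (bump_le _ _).trans ?_
  apply pow_le_pow_of_le_one (by norm_num) (by norm_num)
  nlinarith

lemma summable_bump {M : ℕ} (hM : 0 < M) (r : ℕ) (t : ℝ) :
    Summable fun k => bump (k * M + r) t :=
  Summable.of_norm_bounded summable_geo fun k => bump_le' hM r k t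

lemma Gf_nonneg (M r : ℕ) (t : ℝ) : 0 ≤ Gf M r t := tsum_nonneg fun _ => bump_nonneg _ _

lemma continuous_Gf {M : ℕ} (hM : 0 < M) (r : ℕ) : Continuous (Gf M r) :=
  continuous_tsum (fun _ => continuous_bump _) summable_geo fun k t => bump_le' hM r k t

lemma Gf_mul {M : ℕ} {r r' : ℕ} (hr : r < M) (hr' : r' < M) (h : r ≠ r') (t : ℝ) :
    Gf M r t * Gf M r' t = 0 := by
  by_contra hne
  rcases mul_ne_zero_iff.1 hne with ⟨h1, h2⟩
  have e1 : ∃ k, bump (k * M + r) t ≠ 0 := by
    by_contra hn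
    apply h1
    have : ∀ k, bump (k * M + r) t = 0 := fun k => by
      by_contra hk; exact hn ⟨k, hk⟩
    simp [Gf, this]
  have e2 : ∃ k, bump (k * M + r') t ≠ 0 := by
    by_contra hn
    apply h2
    have : ∀ k, bump (k * M + r') t = 0 := fun k => by
      by_contra hk; exact hn ⟨k, hk⟩
    simp [Gf, this]
  obtain ⟨k, hk⟩ := e1
  obtain ⟨l, hl⟩ := e2
  have hne' : k * M + r ≠ l * M + r' := by
    intro he
    apply h
    have h3 : (k * M + r) % M = (l * M + r') % M := by rw [he]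
    rwa [Nat.add_comm (k * M) r, Nat.add_comm (l * M) r', Nat.add_mul_mod_self_right,
      Nat.add_mul_mod_self_right, Nat.mod_eq_of_lt hr, Nat.mod_eq_of_lt hr'] at h3
  exact mul_ne_zero hk hl (bump_mul hne' t)

lemma Gf_pos_imp {M r : ℕ} {t : ℝ} (h : 0 < Gf M r t) : 0 < t := by
  have e1 : ∃ k, bump (k * M + r) t ≠ 0 := by
    by_contra hn
    apply h.ne'
    have : ∀ k, bump (k * M + r) t = 0 := fun k => by
      by_contra hk; exact hn ⟨k, hk⟩
    simp [Gf, this]
  obtain ⟨k, hk⟩ := e1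
  have h1 := (bump_ne_zero hk).1
  have h2 : (0 : ℝ) < (1 / 2) ^ (k * M + r + 1) := by positivity
  linarith

/-- A summable bound for the squares of the windows on a bounded set. -/
noncomputable def bdW (C : ℝ) : ℕ → ℝ
  | 0 => C
  | k + 1 => 2 * (1 / 2) ^ k

lemma summable_bdW (C : ℝ) : Summable (bdW C) := by
  rw [← summable_nat_add_iff 1]
  exact summable_geo.mul_left 2

lemma summable_bdW_sq (C : ℝ) : Summable fun k => bdW C k * bdW C k := by
  rw [← summable_nat_add_iff 1]
  refine Summable.of_nonneg_of_le (fun k => mul_self_nonneg _) (fun k => ?_)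
    (summable_geo.mul_left 4)
  simp only [bdW]
  have h1 : (0 : ℝ) < (1 / 2) ^ k := by positivity
  have h2 : (1 / 2 : ℝ) ^ k ≤ 1 := pow_le_one₀ (by norm_num) (by norm_num)
  nlinarith

lemma Wf_le_bdW {M : ℕ} (hM : 0 < M) (r k : ℕ) {C t : ℝ} (hC : 0 ≤ C) (ht : t ≤ C) :
    Wf M r k t ≤ bdW C k := by
  cases k with
  | zero =>
    simp only [Wf, bdW]
    have := be_pos M r 0
    exact max_le (by linarith) hC
  | succ k => exact Wf_succ_le hM r k t

lemma norm_Wf_sq_le {M : ℕ} (hM : 0 < M) (r k : ℕ) {C t : ℝ} (hC : 0 ≤ C) (ht : t ≤ C) :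
    ‖Wf M r k t * Wf M r k t‖ ≤ bdW C k * bdW C k := by
  rw [Real.norm_of_nonneg (mul_self_nonneg _)]
  have h1 := Wf_le_bdW hM r k hC ht
  have h2 := Wf_nonneg M r k t
  exact mul_self_le_mul_self h2 h1

lemma summable_Wf_sq {M : ℕ} (hM : 0 < M) (r : ℕ) (t : ℝ) :
    Summable fun k => Wf M r k t * Wf M r k t :=
  Summable.of_norm_bounded (summable_bdW_sq |t|) fun k =>
    norm_Wf_sq_le hM r k (abs_nonneg t) (le_abs_self t)

lemma Ff_nonneg (M r : ℕ) (t : ℝ) : 0 ≤ Ff M r t := tsum_nonneg fun _ => mul_self_nonneg _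

lemma tendsto_Ff {M : ℕ} (hM : 0 < M) (r : ℕ) {S : Set ℝ} {C : ℝ} (hC : 0 ≤ C)
    (hS : ∀ t ∈ S, t ≤ C) :
    TendstoUniformlyOn (fun N t => ∑ k ∈ Finset.range N, Wf M r k t * Wf M r k t) (Ff M r)
      Filter.atTop S :=
  tendstoUniformlyOn_tsum_nat (summable_bdW_sq C) fun k t ht => norm_Wf_sq_le hM r k hC (hS t ht)

lemma continuousOn_Ff {M : ℕ} (hM : 0 < M) (r : ℕ) {S : Set ℝ} {C : ℝ} (hC : 0 ≤ C)
    (hS : ∀ t ∈ S, t ≤ C) : ContinuousOn (Ff M r) S :=
  (tendsto_Ff hM r hC hS).continuousOn (Filter.Frequently.of_forall fun _ =>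
    (continuous_finsetSum _ fun k _ => (continuous_Wf M r k).mul (continuous_Wf M r k)).continuousOn)

/-- The windows and the gaps cover the positive half line. -/
lemma cover {M : ℕ} (hM : 0 < M) (r : ℕ) {t : ℝ} (ht : 0 < t) : 0 < Ff M r t + Gf M r t := by
  have hW : ∀ k, 0 < Wf M r k t → 0 < Ff M r t + Gf M r t := by
    intro k hk
    have h1 : Wf M r k t * Wf M r k t ≤ Ff M r t :=
      (summable_Wf_sq hM r t).le_tsum k fun _ _ => mul_self_nonneg _
    have h2 := Gf_nonneg M r t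
    have h3 : 0 < Wf M r k t * Wf M r k t := mul_pos hk hk
    linarith
  have hG : ∀ k, 0 < bump (k * M + r) t → 0 < Ff M r t + Gf M r t := by
    intro k hk
    have h1 : bump (k * M + r) t ≤ Gf M r t :=
      (summable_bump hM r t).le_tsum k fun _ _ => bump_nonneg _ _
    have h2 := Ff_nonneg M r t
    linarith
  have hex : ∃ n, be M r n < t := by
    obtain ⟨n, hn⟩ := exists_pow_lt_of_lt_one (show (0 : ℝ) < t / 2 by positivity)
      (show (1 / 2 : ℝ) < 1 by norm_num)
    refine ⟨n, ?_⟩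
    have := uu_le hM r n
    unfold be
    linarith
  classical
  have hn := Nat.find_spec hex
  have hmin : ∀ m < Nat.find hex, ¬ be M r m < t := fun m hm => Nat.find_min hex hm
  cases hk : Nat.find hex with
  | zero =>
    rw [hk] at hn
    apply hW 0
    simp only [Wf]
    exact lt_max_of_lt_left (by linarith)
  | succ k =>
    rw [hk] at hn hmin
    have h1 : t ≤ be M r k := not_lt.1 (hmin k (Nat.lt_succ_self k))
    rcases lt_or_ge t (al M r k) with h2 | h2
    · apply hW (k + 1)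
      simp only [Wf]
      exact mul_pos (lt_max_of_lt_left (by linarith)) (lt_max_of_lt_left (by linarith))
    · apply hG k
      have h3 := uu_pos M r k
      have e : (1 / 2 : ℝ) ^ (k * M + r) = 2 * uu M r k := by
        unfold uu; rw [pow_succ]; ring
      apply bump_pos
      · change uu M r k < t
        unfold al at h2
        linarith
      · rw [e]
        unfold be at h1
        linarith

end Pool.Agent.Helper144_BH
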