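import Pool.Agent.Helper144_BH.CFacts
import Pool.Agent.Helper144_BH.Tower
import Pool.Agent.Helper144_BH.WinFun

/-!
# The m-fold Hilbert hotel in a C*-algebra
-/

set_option autoImplicit false

namespace Pool.Agent.Helper144_BH

section

variable {B : Type*} [CStarAlgebra B] [PartialOrder B] [StarOrderedRing B]

/-- The closed right ideal generated by `s`. -/
def rid (s : B) : AddSubgroup B := (AddMonoidHom.mulLeft s).range.topologicalClosure

omit [PartialOrder B] [StarOrderedRing B] in
lemma mem_rid {s y : B} : y ∈ rid s ↔ y ∈ closure (Set.range fun x : B => s * x) := by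
  unfold rid
  rw [← SetLike.mem_coe, AddSubgroup.topologicalClosure_coe]
  rfl

omit [PartialOrder B] [StarOrderedRing B] in
lemma isClosed_rid (s : B) : IsClosed (rid s : Set B) := AddSubgroup.isClosed_topologicalClosure _

omit [PartialOrder B] [StarOrderedRing B] in
lemma rid_mul {s y : B} (hy : y ∈ rid s) (z : B) : y * z ∈ rid s := by
  rw [mem_rid] at hy ⊢
  have hc : Continuous fun y : B => y * z := continuous_id.mul continuous_const
  have h := map_mem_closure hc hy (t := Set.range fun x : B => s * x) (by
    rintro _ ⟨x, rfl⟩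
    exact ⟨x * z, by simp only [mul_assoc]⟩)
  exact h

omit [PartialOrder B] [StarOrderedRing B] in
lemma cfc_mul_eq (a : B) {f g h : ℝ → ℝ} (hf : Continuous f) (hg : Continuous g)
    (H : ∀ t, f t * g t = h t) : cfc f a * cfc g a = cfc h a := by
  rw [← cfc_mul f g a hf.continuousOn hg.continuousOn]
  exact cfc_congr (fun t _ => H t)

omit [PartialOrder B] [StarOrderedRing B] in
lemma star_cfc (a : B) (f : ℝ → ℝ) : star (cfc f a) = cfc f a :=
  (cfc_predicate f a : IsSelfAdjoint (cfc f a)).star_eq

omit [PartialOrder B] [StarOrderedRing B] in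
lemma cfc_sum_univ_helper (a : B) (M r N : ℕ) :
    cfc (fun t => ∑ k ∈ Finset.range N, Wf M r k t * Wf M r k t) a =
      ∑ k ∈ Finset.range N, cfc (Wf M r k) a * cfc (Wf M r k) a := by
  induction N with
  | zero =>
    simp only [Finset.range_zero, Finset.sum_empty]
    exact cfc_const_zero ℝ a
  | succ N ih =>
    simp only [Finset.sum_range_succ]
    have c1 : Continuous fun t => ∑ k ∈ Finset.range N, Wf M r k t * Wf M r k t :=
      continuous_finsetSum _ fun k _ => (continuous_Wf M r k).mul (continuous_Wf M r k)
    have c2 := continuous_Wf M r N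
    rw [cfc_add a (fun t => ∑ k ∈ Finset.range N, Wf M r k t * Wf M r k t)
      (fun t => Wf M r N t * Wf M r N t) c1.continuousOn (c2.mul c2).continuousOn, ih,
      cfc_mul_eq a c2 c2 (fun _ => rfl)]

/-- The isometry like elements. -/
lemma exists_V {a s : B} (ha : 0 ≤ a)
    (hab : a ∈ closure (Set.range fun x : B => x * (star s * s) * star x)) (M r k : ℕ) :
    ∃ V ∈ rid s, star V * V = cfc (Xf M r k) a * cfc (Xf M r k) a := by
  have hasa : IsSelfAdjoint a := ha.isSelfAdjoint
  set X : B := cfc (Xf M r k) a with hX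
  have hXs : star X = X := star_cfc a _
  set δ : ℝ := al M r k / 4 with hδdef
  have hδ : 0 < δ := by have := al_pos M r k; positivity
  obtain ⟨_, ⟨x, rfl⟩, hx⟩ := Metric.mem_closure_iff.1 hab δ hδ
  simp only at hx
  set c : B := x * (star s * s) * star x with hc
  have hcs : c = star (s * star x) * (s * star x) := by
    rw [hc, star_mul, star_star]; noncomm_ring
  have hcsa : IsSelfAdjoint c := by rw [hcs]; exact IsSelfAdjoint.star_mul_self _
  -- c ≥ a - δ
  have h1 : a - algebraMap ℝ B δ ≤ c := by
    have h2 : a - c ≤ algebraMap ℝ B ‖a - c‖ :=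
      IsSelfAdjoint.le_algebraMap_norm_self (hasa.sub hcsa)
    have h3 : algebraMap ℝ B ‖a - c‖ ≤ algebraMap ℝ B δ := by
      rw [dist_eq_norm] at hx
      exact algebraMap_mono B hx.le
    have h4 := h2.trans h3
    rw [sub_le_iff_le_add] at h4 ⊢
    rw [add_comm] at h4
    exact h4
  let v : B := s * (star x * X)
  have hvv : star v * v = star X * c * X := by
    simp only [v]
    rw [hcs, star_mul, star_mul, star_mul, star_star]
    noncomm_ring
  have h5 : star X * (a - algebraMap ℝ B δ) * X ≤ star v * v := by
    rw [hvv]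
    exact star_left_conjugate_le_conjugate h1 X
  have hXc := continuous_Xf M r k
  have h6 : star X * (a - algebraMap ℝ B δ) * X =
      cfc (fun t => Xf M r k t * (t - δ) * Xf M r k t) a := by
    rw [hXs]
    have hid : ContinuousOn (fun t : ℝ => t) (spectrum ℝ a) := continuousOn_id
    rw [cfc_mul (fun t => Xf M r k t * (t - δ)) (Xf M r k) a
      (hXc.continuousOn.mul (hid.sub continuousOn_const)) hXc.continuousOn,
      cfc_mul (Xf M r k) (fun t => t - δ) a hXc.continuousOn (hid.sub continuousOn_const),
      cfc_sub (fun t => t) (fun _ => δ) a hid continuousOn_const, cfc_id' ℝ a,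
      cfc_const δ a]
  have h7 : X * star X = cfc (fun t => Xf M r k t * Xf M r k t) a := by
    rw [hXs]
    exact cfc_mul_eq a hXc hXc (fun _ => rfl)
  have h8 : δ • (X * star X) ≤ star v * v := by
    refine le_trans ?_ h5
    rw [h6, h7, ← cfc_const_mul δ (fun t => Xf M r k t * Xf M r k t) a
      (hXc.mul hXc).continuousOn]
    apply cfc_mono
    · intro t _
      exact X_lower M r k t
    · exact (continuous_const.mul (hXc.mul hXc)).continuousOn
    · exact ((hXc.mul (continuous_id.sub continuous_const)).mul hXc).continuousOn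
  have h9 : X * star X ≤ (1 / δ) • (star v * v) := by
    have := smul_le_smul_of_nonneg_left h8 (show (0 : ℝ) ≤ 1 / δ by positivity)
    rwa [smul_smul, one_div_mul_cancel hδ.ne', one_smul] at this
  obtain ⟨V, hV, hVV⟩ := exists_polar (show (0 : ℝ) ≤ 1 / δ by positivity) h9
  refine ⟨V, ?_, ?_⟩
  · rw [mem_rid]
    refine closure_mono ?_ hV
    rintro _ ⟨y, rfl⟩
    exact ⟨star x * X * y, by simp only [v, mul_assoc]⟩
  · rw [hVV, hXs]

/-- The m-fold Hilbert hotel: if `a` is Cuntz below `star s * s` then `m` copies of the window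
part `Ff M r` of `a` embed isometrically into `m + 1` copies of the closed right ideal of `s`. -/
theorem exists_windows {a s : B} (ha : 0 ≤ a)
    (hab : a ∈ closure (Set.range fun x : B => x * (star s * s) * star x)) {M : ℕ} (hM : 0 < M)
    (r m : ℕ) :
    ∃ ζ : ℕ → ℕ → B, (∀ c i, i ≤ m → c < m → ζ c i ∈ closure (Set.range fun x : B => s * x)) ∧
      ∀ c c', c < m → c' < m →
        inn m (ζ c) (ζ c') = if c = c' then cfc (Ff M r) a else 0 := by
  choose V hV hVV using fun k => exists_V ha hab M r k
  let X : ℕ → B := fun k => cfc (Xf M r k) a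
  let D : ℕ → B := fun k => cfc (Df M r k) a
  let R : ℕ → B := fun k => cfc (Rf M r k) a
  let W : ℕ → B := fun k => cfc (Wf M r k) a
  have hVV' : ∀ k, star (V k) * V k = X k * X k := hVV
  have sD : ∀ k, star (D k) = D k := fun k => star_cfc a _
  have sR : ∀ k, star (R k) = R k := fun k => star_cfc a _
  have sW : ∀ k, star (W k) = W k := fun k => star_cfc a _
  have cX := fun k => continuous_Xf M r k
  have cD := fun k => continuous_Df M r k
  have cR := fun k => continuous_Rf M r k
  have cW := fun k => continuous_Wf M r k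
  have cXX : ∀ k, Continuous fun t => Xf M r k t * Xf M r k t := fun k => (cX k).mul (cX k)
  have eXX : ∀ k, X k * X k = cfc (fun t => Xf M r k t * Xf M r k t) a :=
    fun k => cfc_mul_eq a (cX k) (cX k) (fun _ => rfl)
  have XXD : ∀ k, X k * X k * D k = D k := fun k => by
    rw [eXX]; exact cfc_mul_eq a (cXX k) (cD k) (XD M r k)
  have XXR : ∀ k, X (k + 1) * X (k + 1) * R k = R k := fun k => by
    rw [eXX]; exact cfc_mul_eq a (cXX (k + 1)) (cR k) (XR hM r k)
  have XXW : ∀ k, X k * X k * W k = W k := fun k => by
    rw [eXX]; exact cfc_mul_eq a (cXX k) (cW k) (XW M r k)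
  have eDR : ∀ k, D k * D k + R k * R k = D k + D k := by
    intro k
    have e1 : D k * D k = cfc (fun t => Df M r k t * Df M r k t) a :=
      cfc_mul_eq a (cD k) (cD k) (fun _ => rfl)
    have e2 : R k * R k = cfc (fun t => Rf M r k t * Rf M r k t) a :=
      cfc_mul_eq a (cR k) (cR k) (fun _ => rfl)
    rw [e1, e2, ← cfc_add a (fun t => Df M r k t * Df M r k t) (fun t => Rf M r k t * Rf M r k t)
      ((cD k).mul (cD k)).continuousOn ((cR k).mul (cR k)).continuousOn,
      ← cfc_add a (Df M r k) (Df M r k) (cD k).continuousOn (cD k).continuousOn]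
    apply cfc_congr
    intro t _
    have := DR M r k t
    simp only
    linarith
  have eRD : ∀ k, R k * D (k + 1) = R k := fun k => cfc_mul_eq a (cR k) (cD (k + 1)) (RD hM r k)
  have eWD : ∀ k, W k * D k = W k := fun k => cfc_mul_eq a (cW k) (cD k) (WD M r k)
  have eRW : ∀ k, R k * W (k + 1) = 0 := fun k => by
    have h : R k * W (k + 1) = cfc (fun _ => (0 : ℝ)) a :=
      cfc_mul_eq a (cR k) (cW (k + 1)) (RW' M r k)
    rw [h]; exact cfc_const_zero ℝ a
  -- the operators of the tower
  let q : ℕ → B := fun k => 1 - V k * D k * star (V k)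
  let η : ℕ → B := fun k => V (k + 1) * R k * star (V k)
  let w : ℕ → B := fun k => V k * W k
  have hq : ∀ k, star (q k) * q k + star (η k) * η k = 1 := by
    intro k
    have e1 : star (q k) * q k = 1 - V k * D k * star (V k) - V k * D k * star (V k) +
        V k * (D k * (X k * X k * D k)) * star (V k) := by
      simp only [q]
      rw [star_sub, star_one, star_mul, star_mul, star_star, sD, ← hVV']
      noncomm_ring
    have e2 : star (η k) * η k = V k * (R k * (X (k + 1) * X (k + 1) * R k)) * star (V k) := by
      simp only [η]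
      rw [star_mul, star_mul, star_star, sR, ← hVV']
      noncomm_ring
    rw [e1, e2, XXD, XXR]
    have e3 : V k * (D k * D k) * star (V k) + V k * (R k * R k) * star (V k) =
        V k * D k * star (V k) + V k * D k * star (V k) := by
      rw [← add_mul, ← mul_add, eDR, mul_add, add_mul]
    calc 1 - V k * D k * star (V k) - V k * D k * star (V k) + V k * (D k * D k) * star (V k) +
          V k * (R k * R k) * star (V k)
        = 1 - V k * D k * star (V k) - V k * D k * star (V k) +
          (V k * (D k * D k) * star (V k) + V k * (R k * R k) * star (V k)) := by abel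
      _ = 1 := by rw [e3]; abel
  have hqη : ∀ k, star (η k) * q (k + 1) = 0 := by
    intro k
    have e1 : star (η k) * q (k + 1) = V k * R k * star (V (k + 1)) -
        V k * R k * (X (k + 1) * X (k + 1) * D (k + 1)) * star (V (k + 1)) := by
      simp only [η, q]
      rw [star_mul, star_mul, star_star, sR, ← hVV']
      noncomm_ring
    rw [e1, XXD, mul_assoc (V k) (R k) (D (k + 1)), eRD, sub_self]
  have hηw : ∀ k, star (η k) * w (k + 1) = 0 := by
    intro k
    have e1 : star (η k) * w (k + 1) =
        V k * (R k * (X (k + 1) * X (k + 1) * W (k + 1))) := by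
      simp only [η, w]
      rw [star_mul, star_mul, star_star, sR, ← hVV']
      noncomm_ring
    rw [e1, XXW, eRW, mul_zero]
  have hqw : ∀ k, star (w k) * q k = 0 := by
    intro k
    have e1 : star (w k) * q k = W k * star (V k) -
        W k * (X k * X k * D k) * star (V k) := by
      simp only [w, q]
      rw [star_mul, sW, ← hVV']
      noncomm_ring
    rw [e1, XXD, eWD, sub_self]
  have hww : ∀ k, star (w k) * w k = W k * W k := by
    intro k
    have e1 : star (w k) * w k = W k * (X k * X k * W k) := by
      simp only [w]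
      rw [star_mul, sW, ← hVV']
      noncomm_ring
    rw [e1, XXW]
  -- membership
  have hηJ : ∀ k x, η k * x ∈ rid s := fun k x => by
    simp only [η]
    rw [mul_assoc, mul_assoc]
    exact rid_mul (hV (k + 1)) _
  have hqJ : ∀ k, ∀ x ∈ rid s, q k * x ∈ rid s := fun k x hx => by
    simp only [q]
    rw [sub_mul, one_mul, mul_assoc, mul_assoc]
    exact (rid s).sub_mem hx (rid_mul (hV k) _)
  have hwJ : ∀ k, w k ∈ rid s := fun k => rid_mul (hV k) _
  -- norms
  have hspec : ∀ t ∈ spectrum ℝ a, t ≤ ‖a‖ := by
    intro t ht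
    rcases subsingleton_or_nontrivial B with h | h
    · rw [spectrum.of_subsingleton] at ht
      exact ht.elim
    · exact (le_abs_self t).trans (spectrum.norm_le_norm_of_mem ht)
  have hw : ∀ k, ‖w k‖ ≤ bdW ‖a‖ k := by
    intro k
    have hbd0 : 0 ≤ bdW ‖a‖ k := by
      cases k with
      | zero => exact norm_nonneg a
      | succ k => simp only [bdW]; positivity
    have h1 : ‖W k‖ ≤ bdW ‖a‖ k := by
      apply norm_cfc_le hbd0
      intro t ht
      rw [Real.norm_of_nonneg (Wf_nonneg M r k t)]
      exact Wf_le_bdW hM r k (norm_nonneg a) (hspec t ht)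
    have h2 : ‖w k‖ * ‖w k‖ = ‖W k‖ * ‖W k‖ := by
      rw [← CStarRing.norm_star_mul_self, ← CStarRing.norm_star_mul_self, hww, sW]
    have h3 : ‖w k‖ = ‖W k‖ := by
      rcases mul_self_eq_mul_self_iff.1 h2 with h | h
      · exact h
      · have := norm_nonneg (w k)
        have := norm_nonneg (W k)
        linarith
    rw [h3]; exact h1
  obtain ⟨ζ, hζ1, hζ2⟩ := exists_hotel m hqη hq hηw hqw (rid s) (isClosed_rid s) hηJ hqJ hwJ
    (bdW ‖a‖) (summable_bdW _) hw
  refine ⟨ζ, fun c i hi hc => mem_rid.1 (hζ1 c i hi hc), ?_⟩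
  intro c c' hc hc'
  have h1 := hζ2 c c' hc hc'
  by_cases hcc : c = c'
  · simp only [hcc, if_true] at h1 ⊢
    have h2 : Filter.Tendsto (fun N => ∑ k ∈ Finset.range N, star (w k) * w k) Filter.atTop
        (nhds (cfc (Ff M r) a)) := by
      have e : (fun N => ∑ k ∈ Finset.range N, star (w k) * w k) =
          fun N => cfc (fun t => ∑ k ∈ Finset.range N, Wf M r k t * Wf M r k t) a := by
        funext N
        rw [cfc_sum_univ_helper a M r N]
        exact Finset.sum_congr rfl fun k _ => hww k
      rw [e]
      apply tendsto_cfc_fun (tendsto_Ff hM r (norm_nonneg a) hspec)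
      exact Filter.Eventually.of_forall fun N =>
        (continuous_finsetSum _ fun k _ => (cW k).mul (cW k)).continuousOn
    exact tendsto_nhds_unique h1 h2
  · simp only [hcc, if_false] at h1 ⊢
    exact tendsto_nhds_unique h1 tendsto_const_nhds

end

end Pool.Agent.Helper144_BH
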